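import Pool.Agent.Y456.BigMap.Defs

/-!
# Amenability: subgroups, and a criterion for non-amenability
-/

set_option autoImplicit false

namespace Pool.Agent.Y456.BigMap

theorem IsAmenable.of_injective {A H : Type} [Group A] [Group H] (i : A →* H)
    (hi : Function.Injective i) (h : IsAmenable H) : IsAmenable A := by
  classical
  obtain ⟨μ, h0, h1, h2, h3⟩ := h
  let s := QuotientGroup.rightRel i.range
  let out : H → H := fun x => Quotient.out (Quotient.mk s x)
  have hout : ∀ x : H, x * (out x)⁻¹ ∈ i.range := by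
    intro x
    have : s (out x) x := Quotient.exact (Quotient.out_eq (Quotient.mk s x))
    exact (QuotientGroup.rightRel_apply).1 this
  have hout' : ∀ (a : A) (x : H), out (i a * x) = out x := by
    intro a x
    have : Quotient.mk s (i a * x) = Quotient.mk s x := by
      apply Quotient.sound
      apply (QuotientGroup.rightRel_apply).2
      rw [mul_inv_rev, mul_inv_cancel_left]
      exact inv_mem ⟨a, rfl⟩
    show Quotient.out _ = Quotient.out _
    rw [this]
  choose κ hκ using hout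
  have hκ' : ∀ (a : A) (x : H), κ (i a * x) = a * κ x := by
    intro a x
    apply hi
    rw [hκ, hout', map_mul, hκ]
    group
  refine ⟨fun E => μ (κ ⁻¹' E), fun E => h0 _, h1, fun E F hEF => ?_, fun a E => ?_⟩
  · show μ (κ ⁻¹' (E ∪ F)) = _
    rw [Set.preimage_union]
    exact h2 _ _ (hEF.preimage κ)
  · show μ (κ ⁻¹' ((fun x => a * x) '' E)) = μ (κ ⁻¹' E)
    rw [← h3 (i a) (κ ⁻¹' E)]
    congr 1
    ext x
    constructor
    · rintro ⟨b, hb, hbx⟩
      refine ⟨i a⁻¹ * x, ?_, ?_⟩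
      · show κ (i a⁻¹ * x) ∈ E
        rw [hκ', ← hbx]
        simpa using hb
      · show i a * (i a⁻¹ * x) = x
        rw [← mul_assoc, ← map_mul]
        simp
    · rintro ⟨y, hy, rfl⟩
      refine ⟨κ y, hy, ?_⟩
      show a * κ y = κ (i a * y)
      rw [hκ']

theorem not_isAmenable_of_paradox {A : Type} [Group A] (k₁ k₂ k₃ : A) (E₀ E₁ E₀₀ E₀₁ : Set A)
    (h1 : E₀ ∪ E₁ = Set.univ) (h2 : Disjoint E₀ E₁) (h3 : E₀₀ ∪ E₀₁ = E₀) (h4 : Disjoint E₀₀ E₀₁)
    (h5 : (fun x => k₂ * x) '' E₀ = E₁) (h6 : (fun x => k₁ * x) '' E₀ = E₀₀)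
    (h7 : (fun x => k₃ * x) '' E₀₀ = E₀₁) : ¬ IsAmenable A := by
  rintro ⟨μ, m0, m1, m2, m3⟩
  have e1 := m2 _ _ h2
  rw [h1, m1] at e1
  have e2 := m2 _ _ h4
  rw [h3] at e2
  have e5 := m3 k₂ E₀
  rw [h5] at e5
  have e6 := m3 k₁ E₀
  rw [h6] at e6
  have e7 := m3 k₃ E₀₀
  rw [h7] at e7
  linarith

end Pool.Agent.Y456.BigMap
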