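import Mathlib

/-!
# The mapping class group of the plane minus a Cantor set, amenability, quasimorphisms
-/

set_option autoImplicit false

open scoped unitInterval

namespace Pool.Agent.Y456.BigMap

/-- `h` is isotopic to the identity. An isotopy is a level-preserving homeomorphism of
`[0, 1] × X`. -/
def IsotopicToId {X : Type} [TopologicalSpace X] (h : X ≃ₜ X) : Prop :=
  ∃ Φ : (I × X) ≃ₜ (I × X),
    (∀ p, (Φ p).1 = p.1) ∧ (∀ x, Φ (0, x) = (0, x)) ∧ ∀ x, Φ (1, x) = (1, h x)

theorem IsotopicToId.mul {X : Type} [TopologicalSpace X] {g h : X ≃ₜ X} (hg : IsotopicToId g)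
    (hh : IsotopicToId h) : IsotopicToId (g * h) := by
  obtain ⟨Φ, h1, h2, h3⟩ := hg
  obtain ⟨Ψ, k1, k2, k3⟩ := hh
  refine ⟨Ψ.trans Φ, fun p => ?_, fun x => ?_, fun x => ?_⟩
  · rw [Homeomorph.trans_apply, h1, k1]
  · rw [Homeomorph.trans_apply, k2, h2]
  · rw [Homeomorph.trans_apply, k3, h3]
    rfl

theorem IsotopicToId.one {X : Type} [TopologicalSpace X] : IsotopicToId (1 : X ≃ₜ X) :=
  ⟨Homeomorph.refl _, fun _ => rfl, fun _ => rfl, fun _ => rfl⟩

theorem IsotopicToId.inv {X : Type} [TopologicalSpace X] {g : X ≃ₜ X} (hg : IsotopicToId g) :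
    IsotopicToId g⁻¹ := by
  obtain ⟨Φ, h1, h2, h3⟩ := hg
  refine ⟨Φ.symm, fun p => ?_, fun x => ?_, fun x => ?_⟩
  · rw [← h1 (Φ.symm p), Φ.apply_symm_apply]
  · rw [Homeomorph.symm_apply_eq, h2]
  · rw [Homeomorph.symm_apply_eq, h3]
    change _ = (1, g (g.symm x))
    rw [g.apply_symm_apply]

theorem IsotopicToId.conj {X : Type} [TopologicalSpace X] {g : X ≃ₜ X} (hg : IsotopicToId g)
    (k : X ≃ₜ X) : IsotopicToId (k * g * k⁻¹) := by
  obtain ⟨Φ, h1, h2, h3⟩ := hg
  refine ⟨((Homeomorph.refl I).prodCongr k.symm).trans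
    (Φ.trans ((Homeomorph.refl I).prodCongr k)), fun p => ?_, fun x => ?_, fun x => ?_⟩
  · change (Φ (p.1, k.symm p.2)).1 = p.1
    rw [h1]
  · change ((Φ (0, k.symm x)).1, k (Φ (0, k.symm x)).2) = (0, x)
    rw [h2]
    change (0, k (k.symm x)) = (0, x)
    rw [k.apply_symm_apply]
  · change ((Φ (1, k.symm x)).1, k (Φ (1, k.symm x)).2) = (1, k (g (k.symm x)))
    rw [h3]

/-- The loop `γ` winds exactly once around `p` in the positive direction: it avoids `p`, and the
loop `γ - p` is homotopic in `ℂ ∖ {0}` to the inclusion of the unit circle. -/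
def WindsOnce (γ : C(Circle, ℂ)) (p : ℂ) : Prop :=
  ∃ γ' : C(Circle, {z : ℂ // z ≠ 0}), (∀ z, (γ' z : ℂ) = γ z - p) ∧
    γ'.Homotopic ⟨fun z => ⟨(z : ℂ), Circle.coe_ne_zero z⟩, by fun_prop⟩

/-- The surface `ℝ² ∖ C`. -/
def PlaneMinus (C : Set ℂ) : Type := {z : ℂ // z ∉ C}

instance (C : Set ℂ) : TopologicalSpace (PlaneMinus C) :=
  inferInstanceAs (TopologicalSpace {z : ℂ // z ∉ C})

/-- The inclusion of `ℝ² ∖ C` in the plane. -/
def toPlane (C : Set ℂ) : C(PlaneMinus C, ℂ) := ⟨Subtype.val, continuous_subtype_val⟩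

/-- `h` preserves the orientation: a loop `γ` which is null-homotopic in `ℝ² ∖ C` winds once
around a point `p` in the positive direction if and only if its image winds once around the image
of `p` in the positive direction. -/
def PreservesOrientation {C : Set ℂ} (h : PlaneMinus C ≃ₜ PlaneMinus C) : Prop :=
  ∀ (p : PlaneMinus C) (γ : C(Circle, PlaneMinus C)), γ.Nullhomotopic →
    (WindsOnce ((toPlane C).comp γ) (toPlane C p) ↔
      WindsOnce ((toPlane C).comp ((h : C(PlaneMinus C, PlaneMinus C)).comp γ)) (toPlane C (h p)))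

theorem nullhomotopic_comp {C : Set ℂ} (h : PlaneMinus C ≃ₜ PlaneMinus C)
    {γ : C(Circle, PlaneMinus C)} (hγ : γ.Nullhomotopic) :
    ((h : C(PlaneMinus C, PlaneMinus C)).comp γ).Nullhomotopic := by
  obtain ⟨y, hy⟩ := hγ
  exact ⟨h y, ContinuousMap.Homotopic.comp (ContinuousMap.Homotopic.refl _) hy⟩

theorem PreservesOrientation.mul {C : Set ℂ} {g h : PlaneMinus C ≃ₜ PlaneMinus C}
    (hg : PreservesOrientation g) (hh : PreservesOrientation h) :
    PreservesOrientation (g * h) := fun p γ hγ =>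
  (hh p γ hγ).trans (hg (h p) _ (nullhomotopic_comp h hγ))

theorem PreservesOrientation.one {C : Set ℂ} :
    PreservesOrientation (1 : PlaneMinus C ≃ₜ PlaneMinus C) := fun _ _ _ => Iff.rfl

theorem PreservesOrientation.inv {C : Set ℂ} {h : PlaneMinus C ≃ₜ PlaneMinus C}
    (hh : PreservesOrientation h) : PreservesOrientation h⁻¹ := by
  intro p γ hγ
  have := hh (h.symm p) _ (nullhomotopic_comp h.symm hγ)
  have e1 : (h : C(PlaneMinus C, PlaneMinus C)).comp
      ((h.symm : C(PlaneMinus C, PlaneMinus C)).comp γ) = γ := by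
    ext z
    simp
  rw [e1, h.apply_symm_apply] at this
  exact this.symm

/-- The group `Homeo⁺(ℝ² ∖ C)` of orientation preserving homeomorphisms. -/
def homeoPlus (C : Set ℂ) : Subgroup (PlaneMinus C ≃ₜ PlaneMinus C) where
  carrier := {h | PreservesOrientation h}
  mul_mem' := PreservesOrientation.mul
  one_mem' := PreservesOrientation.one
  inv_mem' := PreservesOrientation.inv

/-- Its subgroup `Homeo₀(ℝ² ∖ C)` of the homeomorphisms isotopic to the identity. -/
def homeoZero (C : Set ℂ) : Subgroup (homeoPlus C) where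
  carrier := {h | IsotopicToId (h : PlaneMinus C ≃ₜ PlaneMinus C)}
  mul_mem' := IsotopicToId.mul
  one_mem' := IsotopicToId.one
  inv_mem' := IsotopicToId.inv

instance (C : Set ℂ) : (homeoZero C).Normal where
  conj_mem _ hg k := IsotopicToId.conj hg k

/-- The mapping class group `Homeo⁺(ℝ² ∖ C) / Homeo₀(ℝ² ∖ C)`. -/
def MappingClassGroup (C : Set ℂ) : Type := homeoPlus C ⧸ homeoZero C

instance (C : Set ℂ) : Group (MappingClassGroup C) := QuotientGroup.Quotient.group (homeoZero C)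

/-- The ternary Cantor set, placed on the real axis of the plane. -/
def planeCantorSet : Set ℂ := (fun x : ℝ => (x : ℂ)) '' cantorSet

/-- Amenability of a discrete group: there is a left invariant finitely additive probability
measure defined on all subsets. -/
def IsAmenable (G : Type) [Group G] : Prop :=
  ∃ μ : Set G → ℝ, (∀ A, 0 ≤ μ A) ∧ μ Set.univ = 1 ∧
    (∀ A B, Disjoint A B → μ (A ∪ B) = μ A + μ B) ∧
    ∀ (g : G) (A : Set G), μ ((fun x => g * x) '' A) = μ A

/-- Homogeneous quasimorphisms. -/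
def IsHomogeneousQuasimorphism {G : Type} [Group G] (φ : G → ℝ) : Prop :=
  (∃ D : ℝ, ∀ g h : G, |φ (g * h) - φ g - φ h| ≤ D) ∧ ∀ (g : G) (n : ℤ), φ (g ^ n) = n * φ g

theorem IsHomogeneousQuasimorphism.add {G : Type} [Group G] {φ ψ : G → ℝ}
    (hφ : IsHomogeneousQuasimorphism φ) (hψ : IsHomogeneousQuasimorphism ψ) :
    IsHomogeneousQuasimorphism (φ + ψ) := by
  obtain ⟨⟨D, hD⟩, h1⟩ := hφ
  obtain ⟨⟨E, hE⟩, h2⟩ := hψ
  refine ⟨⟨D + E, fun g h => ?_⟩, fun g n => ?_⟩
  · have := abs_add_le (φ (g * h) - φ g - φ h) (ψ (g * h) - ψ g - ψ h)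
    have e : (φ + ψ) (g * h) - (φ + ψ) g - (φ + ψ) h =
        (φ (g * h) - φ g - φ h) + (ψ (g * h) - ψ g - ψ h) := by
      simp only [Pi.add_apply]
      ring
    rw [e]
    exact this.trans (add_le_add (hD g h) (hE g h))
  · simp only [Pi.add_apply, h1, h2]
    ring

theorem IsHomogeneousQuasimorphism.zero {G : Type} [Group G] :
    IsHomogeneousQuasimorphism (0 : G → ℝ) :=
  ⟨⟨0, fun g h => by simp⟩, fun g n => by simp⟩

theorem IsHomogeneousQuasimorphism.smul {G : Type} [Group G] (c : ℝ) {φ : G → ℝ}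
    (hφ : IsHomogeneousQuasimorphism φ) : IsHomogeneousQuasimorphism (c • φ) := by
  obtain ⟨⟨D, hD⟩, h1⟩ := hφ
  refine ⟨⟨|c| * D, fun g h => ?_⟩, fun g n => ?_⟩
  · have e : (c • φ) (g * h) - (c • φ) g - (c • φ) h = c * (φ (g * h) - φ g - φ h) := by
      simp only [Pi.smul_apply, smul_eq_mul]
      ring
    rw [e, abs_mul]
    exact mul_le_mul_of_nonneg_left (hD g h) (abs_nonneg c)
  · simp only [Pi.smul_apply, smul_eq_mul, h1]
    ring

/-- The space `Q(G)` of homogeneous quasimorphisms. -/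
def homogeneousQuasimorphisms (G : Type) [Group G] : Submodule ℝ (G → ℝ) where
  carrier := {φ | IsHomogeneousQuasimorphism φ}
  add_mem' := IsHomogeneousQuasimorphism.add
  zero_mem' := IsHomogeneousQuasimorphism.zero
  smul_mem' c _ := IsHomogeneousQuasimorphism.smul c

theorem realCharacters_add {G : Type} [Group G] {φ ψ : G → ℝ}
    (h1 : ∀ g h : G, φ (g * h) = φ g + φ h) (h2 : ∀ g h : G, ψ (g * h) = ψ g + ψ h) (g h : G) :
    (φ + ψ) (g * h) = (φ + ψ) g + (φ + ψ) h := by
  simp only [Pi.add_apply, h1 g h, h2 g h]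
  ring

theorem realCharacters_smul {G : Type} [Group G] (c : ℝ) {φ : G → ℝ}
    (h1 : ∀ g h : G, φ (g * h) = φ g + φ h) (g h : G) :
    (c • φ) (g * h) = (c • φ) g + (c • φ) h := by
  simp only [Pi.smul_apply, smul_eq_mul, h1 g h]
  ring

theorem realCharacters_zero {G : Type} [Group G] (g h : G) :
    (0 : G → ℝ) (g * h) = (0 : G → ℝ) g + (0 : G → ℝ) h := by simp

/-- The space `Hom(G, ℝ)`. -/
def realCharacters (G : Type) [Group G] : Submodule ℝ (G → ℝ) where
  carrier := {φ | ∀ g h : G, φ (g * h) = φ g + φ h}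
  add_mem' := realCharacters_add
  zero_mem' := realCharacters_zero
  smul_mem' c _ := realCharacters_smul c

/-- The dimension of the space `Q(G) / Hom(G, ℝ)`. -/
noncomputable def dimQTilde (G : Type) [Group G] : Cardinal :=
  Module.rank ℝ (homogeneousQuasimorphisms G ⧸
    (realCharacters G).submoduleOf (homogeneousQuasimorphisms G))

end Pool.Agent.Y456.BigMap
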