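import Pool.Agent.Y456.BigMap.Plane

/-!
# Restriction to the complement of the Cantor set; the action on the ends
-/

set_option autoImplicit false

open scoped unitInterval

namespace Pool.Agent.Y456.BigMap

/-- The homeomorphisms of the plane which preserve the orientation and the Cantor set and which are
the identity outside the strip `|Re z - 1/2| < 1`. -/
noncomputable def stripGroup : Subgroup (ℂ ≃ₜ ℂ) where
  carrier := {g | g ∈ orientGroup ∧ (∀ z, g z ∈ planeCantorSet ↔ z ∈ planeCantorSet) ∧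
    ∀ z : ℂ, 1 ≤ |z.re - 1 / 2| → g z = z}
  mul_mem' := by
    rintro g h ⟨g1, g2, g3⟩ ⟨h1, h2, h3⟩
    refine ⟨mul_mem g1 h1, fun z => (g2 (h z)).trans (h2 z), fun z hz => ?_⟩
    show g (h z) = z
    rw [h3 z hz, g3 z hz]
  one_mem' := ⟨one_mem _, fun z => Iff.rfl, fun z _ => rfl⟩
  inv_mem' := by
    rintro g ⟨g1, g2, g3⟩
    refine ⟨inv_mem g1, fun z => ?_, fun z hz => ?_⟩
    · have := g2 (g.symm z)
      rw [g.apply_symm_apply] at this
      exact this.symm
    · show g.symm z = z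
      rw [Homeomorph.symm_apply_eq, g3 z hz]

/-- Restriction to the complement of the Cantor set. -/
noncomputable def restr (g : stripGroup) : PlaneMinus planeCantorSet ≃ₜ PlaneMinus planeCantorSet :=
  (g : ℂ ≃ₜ ℂ).subtype (p := fun z => z ∉ planeCantorSet) (q := fun z => z ∉ planeCantorSet)
    (fun z => (not_congr (g.2.2.1 z)).symm)

theorem restr_apply (g : stripGroup) (z : PlaneMinus planeCantorSet) :
    toPlane _ (restr g z) = (g : ℂ ≃ₜ ℂ) (toPlane _ z) := rfl

theorem restr_mem (g : stripGroup) : restr g ∈ homeoPlus planeCantorSet := by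
  intro p γ _
  exact (g.2.1 ((toPlane planeCantorSet).comp γ) (toPlane _ p)).symm

/-- The restriction homomorphism. -/
noncomputable def restrHom : stripGroup →* homeoPlus planeCantorSet where
  toFun g := ⟨restr g, restr_mem g⟩
  map_one' := rfl
  map_mul' _ _ := rfl

/-- The homomorphism to the mapping class group. -/
noncomputable def toMap : stripGroup →* MappingClassGroup planeCantorSet :=
  (QuotientGroup.mk' (homeoZero planeCantorSet)).comp restrHom

theorem toMap_eq_one {g : stripGroup} (h : toMap g = 1) : IsotopicToId (restr g) := by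
  have h1 : (QuotientGroup.mk' (homeoZero planeCantorSet)) (restrHom g) = 1 := h
  rw [QuotientGroup.mk'_apply, QuotientGroup.eq_one_iff] at h1
  exact h1

/-- The distance to the centre of the circle through `s` which encloses the points of the Cantor
set to the left of `s`. -/
noncomputable def sepFun (s : ℝ) (z : ℂ) : ℝ := ‖z - ((s - 1 : ℝ) : ℂ)‖

theorem sepFun_continuous (s : ℝ) : Continuous (sepFun s) := by
  unfold sepFun
  fun_prop

theorem sepFun_of_mem {s : ℝ} (hs : s < 1) {c : ℂ} (hc : c ∈ planeCantorSet) :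
    sepFun s c = c.re - s + 1 := by
  obtain ⟨h1, h2⟩ := mem_planeCantorSet.1 hc
  have h3 := cantor_nonneg h2
  have e : c - ((s - 1 : ℝ) : ℂ) = ((c.re - s + 1 : ℝ) : ℂ) := by
    apply Complex.ext
    · simp
      ring
    · simp [h1]
  unfold sepFun
  rw [e, Complex.norm_real, Real.norm_eq_abs, abs_of_nonneg (by linarith)]

theorem isCompact_sep {s : ℝ} (hs : s ∉ cantorSet) (hs1 : s < 1) :
    IsCompact {u : PlaneMinus planeCantorSet | sepFun s (toPlane _ u) = 1} := by
  have h : IsCompact {u : {z : ℂ // z ∉ planeCantorSet} | sepFun s (u : ℂ) = 1} := by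
    rw [Subtype.isCompact_iff]
    have e : Subtype.val '' {u : {z : ℂ // z ∉ planeCantorSet} | sepFun s (u : ℂ) = 1} =
        Metric.sphere ((s - 1 : ℝ) : ℂ) 1 := by
      ext z
      constructor
      · rintro ⟨u, hu, rfl⟩
        rw [mem_sphere_iff_norm]
        exact hu
      · intro hz
        rw [mem_sphere_iff_norm] at hz
        refine ⟨⟨z, fun hc => ?_⟩, hz, rfl⟩
        have h1 := sepFun_of_mem hs1 hc
        have h2 : sepFun s z = 1 := hz
        have h3 : z.re = s := by linarith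
        apply hs
        rw [← h3]
        exact (mem_planeCantorSet.1 hc).2
    rw [e]
    exact isCompact_sphere _ _
  exact h

/-- A point of the plane off the Cantor set. -/
def ofPlane (z : ℂ) (hz : z ∉ planeCantorSet) : PlaneMinus planeCantorSet := ⟨z, hz⟩

theorem ends_aux {g : stripGroup} {c : ℂ} (hc : c ∈ planeCantorSet)
    (Φ : (I × PlaneMinus planeCantorSet) ≃ₜ (I × PlaneMinus planeCantorSet))
    (h2 : ∀ x, Φ (0, x) = (0, x)) (h3 : ∀ x, Φ (1, x) = (1, restr g x))
    {s : ℝ} (hs : s ∉ cantorSet) (hs1 : s < 1)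
    (hsep : (sepFun s c < 1 ∧ 1 < sepFun s ((g : ℂ ≃ₜ ℂ) c)) ∨
      (1 < sepFun s c ∧ sepFun s ((g : ℂ ≃ₜ ℂ) c) < 1)) : False := by
  -- the points close to `c`
  have him := (mem_planeCantorSet.1 hc).1
  let z : ℕ → ℂ := fun n => c + ((1 / ((n : ℝ) + 1) : ℝ) : ℂ) * Complex.I
  have hz : ∀ n, z n ∉ planeCantorSet := by
    intro n hn
    have := (mem_planeCantorSet.1 hn).1
    have e : (z n).im = 1 / ((n : ℝ) + 1) := by
      show (c + ((1 / ((n : ℝ) + 1) : ℝ) : ℂ) * Complex.I).im = _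
      rw [Complex.add_im, him, Complex.mul_im, Complex.ofReal_re, Complex.ofReal_im, Complex.I_re,
        Complex.I_im]
      ring
    rw [e] at this
    have : (0 : ℝ) < 1 / ((n : ℝ) + 1) := by positivity
    linarith
  have hlim : Filter.Tendsto z Filter.atTop (nhds c) := by
    have h1 : Filter.Tendsto (fun n : ℕ => (1 / ((n : ℝ) + 1) : ℝ)) Filter.atTop (nhds 0) :=
      tendsto_one_div_add_atTop_nhds_zero_nat
    have h2 : Filter.Tendsto (fun n : ℕ => ((1 / ((n : ℝ) + 1) : ℝ) : ℂ)) Filter.atTop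
        (nhds ((0 : ℝ) : ℂ)) := (Complex.continuous_ofReal.tendsto 0).comp h1
    have h3 := (h2.mul_const Complex.I).const_add c
    have e : c + ((0 : ℝ) : ℂ) * Complex.I = c := by simp
    rw [e] at h3
    exact h3
  -- the compact set which the tracks meet
  let K : Set (I × PlaneMinus planeCantorSet) :=
    Φ.symm '' (Set.univ ×ˢ {u : PlaneMinus planeCantorSet | sepFun s (toPlane _ u) = 1})
  have hK : IsCompact K := ((isCompact_univ).prod (isCompact_sep hs hs1)).image Φ.symm.continuous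
  let K' : Set ℂ := (fun q : I × PlaneMinus planeCantorSet => toPlane _ q.2) '' K
  have hK' : IsCompact K' := hK.image (by fun_prop)
  have hev : ∀ᶠ n in Filter.atTop, z n ∈ K' := by
    have c1 : Filter.Tendsto (fun n => sepFun s (z n)) Filter.atTop (nhds (sepFun s c)) :=
      ((sepFun_continuous s).tendsto c).comp hlim
    have c2 : Filter.Tendsto (fun n => sepFun s ((g : ℂ ≃ₜ ℂ) (z n))) Filter.atTop
        (nhds (sepFun s ((g : ℂ ≃ₜ ℂ) c))) :=
      (((sepFun_continuous s).comp (g : ℂ ≃ₜ ℂ).continuous).tendsto c).comp hlim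
    have key : ∀ n, ((sepFun s (z n) ≤ 1 ∧ 1 ≤ sepFun s ((g : ℂ ≃ₜ ℂ) (z n))) ∨
        (1 ≤ sepFun s (z n) ∧ sepFun s ((g : ℂ ≃ₜ ℂ) (z n)) ≤ 1)) → z n ∈ K' := by
      intro n hn
      set x : PlaneMinus planeCantorSet := ofPlane (z n) (hz n) with hx
      have hcont : Continuous fun t : I => sepFun s (toPlane _ (Φ (t, x)).2) := by
        have := sepFun_continuous s
        fun_prop
      have v0 : sepFun s (toPlane _ (Φ (0, x)).2) = sepFun s (z n) := by
        rw [h2]
        rfl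
      have v1 : sepFun s (toPlane _ (Φ (1, x)).2) = sepFun s ((g : ℂ ≃ₜ ℂ) (z n)) := by
        rw [h3]
        rfl
      have hr : (1 : ℝ) ∈ Set.range fun t : I => sepFun s (toPlane _ (Φ (t, x)).2) := by
        rcases hn with ⟨a, b⟩ | ⟨a, b⟩
        · exact mem_range_of_exists_le_of_exists_ge hcont ⟨0, by rw [v0]; exact a⟩
            ⟨1, by rw [v1]; exact b⟩
        · exact mem_range_of_exists_le_of_exists_ge hcont ⟨1, by rw [v1]; exact b⟩
            ⟨0, by rw [v0]; exact a⟩
      obtain ⟨t, ht⟩ := hr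
      refine ⟨(t, x), ⟨Φ (t, x), ⟨Set.mem_univ _, ht⟩, ?_⟩, rfl⟩
      rw [Φ.symm_apply_apply]
    rcases hsep with ⟨a, b⟩ | ⟨a, b⟩
    · filter_upwards [c1.eventually_lt_const a, c2.eventually_const_lt b] with n h1 h2
      exact key n (Or.inl ⟨h1.le, h2.le⟩)
    · filter_upwards [c1.eventually_const_lt a, c2.eventually_lt_const b] with n h1 h2
      exact key n (Or.inr ⟨h1.le, h2.le⟩)
  have hmem : c ∈ K' := hK'.isClosed.mem_of_tendsto hlim hev
  obtain ⟨q, _, hq⟩ := hmem
  have hq' : toPlane _ q.2 = c := hq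
  exact q.2.2 (by
    show toPlane _ q.2 ∈ planeCantorSet
    rw [hq']
    exact hc)

/-- A homeomorphism whose restriction is isotopic to the identity fixes the Cantor set
pointwise. -/
theorem apply_eq_of_toMap_eq_one {g : stripGroup} (h : toMap g = 1) {c : ℂ}
    (hc : c ∈ planeCantorSet) : (g : ℂ ≃ₜ ℂ) c = c := by
  obtain ⟨Φ, _, h2, h3⟩ := toMap_eq_one h
  have hgc : (g : ℂ ≃ₜ ℂ) c ∈ planeCantorSet := (g.2.2.1 c).2 hc
  obtain ⟨i1, r1⟩ := mem_planeCantorSet.1 hc
  obtain ⟨i2, r2⟩ := mem_planeCantorSet.1 hgc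
  rcases lt_trichotomy c.re ((g : ℂ ≃ₜ ℂ) c).re with hlt | heq | hlt
  · exfalso
    obtain ⟨s, hs1, hs2, hs3⟩ := exists_not_mem_cantor hlt
    have hs4 : s < 1 := lt_of_lt_of_le hs2 (cantor_le_one r2)
    refine ends_aux hc Φ h2 h3 hs3 hs4 (Or.inl ⟨?_, ?_⟩)
    · rw [sepFun_of_mem hs4 hc]
      linarith
    · rw [sepFun_of_mem hs4 hgc]
      linarith
  · exact (Complex.ext heq (by rw [i1, i2])).symm
  · exfalso
    obtain ⟨s, hs1, hs2, hs3⟩ := exists_not_mem_cantor hlt
    have hs4 : s < 1 := lt_of_lt_of_le hs2 (cantor_le_one r1)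
    refine ends_aux hc Φ h2 h3 hs3 hs4 (Or.inr ⟨?_, ?_⟩)
    · rw [sepFun_of_mem hs4 hc]
      linarith
    · rw [sepFun_of_mem hs4 hgc]
      linarith

theorem apply_eq_of_toMap_eq {g h : stripGroup} (e : toMap g = toMap h) {c : ℂ}
    (hc : c ∈ planeCantorSet) : (g : ℂ ≃ₜ ℂ) c = (h : ℂ ≃ₜ ℂ) c := by
  have h1 : toMap (h⁻¹ * g) = 1 := by rw [map_mul, map_inv, e, inv_mul_cancel]
  have h2 := apply_eq_of_toMap_eq_one h1 hc
  have h3 : (h : ℂ ≃ₜ ℂ).symm ((g : ℂ ≃ₜ ℂ) c) = c := h2
  rw [Homeomorph.symm_apply_eq] at h3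
  exact h3

end Pool.Agent.Y456.BigMap
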