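import Pool.Agent.Y456.BigMap.Defs

/-!
# Homogeneous quasimorphisms on groups of lamplighter type
-/

set_option autoImplicit false

namespace Pool.Agent.Y456.BigMap

section

variable {G : Type} [Group G] {φ : G → ℝ} {D : ℝ}

/-- If `n * x` is bounded independently of `n` then `x = 0`. -/
theorem eq_zero_of_mul_bounded {x D : ℝ} (h : ∀ n : ℕ, |(n : ℝ) * x| ≤ D) : x = 0 := by
  by_contra hx
  have hx' : 0 < |x| := abs_pos.2 hx
  obtain ⟨n, hn⟩ := exists_nat_gt (D / |x|)
  have h1 := h n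
  rw [abs_mul, Nat.abs_cast] at h1
  rw [div_lt_iff₀ hx'] at hn
  linarith

theorem quasi_one (hn : ∀ (g : G) (n : ℤ), φ (g ^ n) = n * φ g) : φ 1 = 0 := by
  have := hn 1 0
  simpa using this

theorem quasi_inv (hn : ∀ (g : G) (n : ℤ), φ (g ^ n) = n * φ g) (g : G) : φ g⁻¹ = - φ g := by
  have := hn g (-1)
  simpa using this

theorem quasi_commute (hD : ∀ g h : G, |φ (g * h) - φ g - φ h| ≤ D)
    (hn : ∀ (g : G) (n : ℤ), φ (g ^ n) = n * φ g) {g h : G} (hgh : Commute g h) :
    φ (g * h) = φ g + φ h := by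
  have : φ (g * h) - φ g - φ h = 0 := by
    apply eq_zero_of_mul_bounded (D := D)
    intro n
    have h1 := hD (g ^ (n : ℤ)) (h ^ (n : ℤ))
    rw [← hgh.mul_zpow, hn, hn, hn] at h1
    have e : (n : ℝ) * (φ (g * h) - φ g - φ h) =
        ((n : ℤ) : ℝ) * φ (g * h) - ((n : ℤ) : ℝ) * φ g - ((n : ℤ) : ℝ) * φ h := by
      push_cast
      ring
    rw [e]
    exact h1
  linarith

theorem quasi_conj (hD : ∀ g h : G, |φ (g * h) - φ g - φ h| ≤ D)
    (hn : ∀ (g : G) (n : ℤ), φ (g ^ n) = n * φ g) (g h : G) :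
    φ (h * g * h⁻¹) = φ g := by
  have : φ (h * g * h⁻¹) - φ g = 0 := by
    apply eq_zero_of_mul_bounded (D := 2 * D)
    intro n
    have h1 := hD (h * g ^ (n : ℤ)) h⁻¹
    have h2 := hD h (g ^ (n : ℤ))
    rw [← conj_zpow, hn, quasi_inv hn] at h1
    rw [hn] at h2
    rw [abs_le] at *
    push_cast at *
    constructor <;> nlinarith [h1.1, h1.2, h2.1, h2.2]
  linarith

/-- The product `b (s b s⁻¹) (s² b s⁻²) ⋯` with `n` factors. -/
def swindle (s b : G) : ℕ → G
  | 0 => 1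
  | n + 1 => b * (s * swindle s b n * s⁻¹)

theorem swindle_conj (s b : G) (C : Subgroup G) (hb : ∀ i : ℕ, 1 ≤ i → s ^ i * b * (s ^ i)⁻¹ ∈ C) :
    ∀ (n : ℕ) (j : ℕ), 1 ≤ j → s ^ j * swindle s b n * (s ^ j)⁻¹ ∈ C
  | 0, j, _ => by
      simp only [swindle, mul_one, mul_inv_cancel]
      exact C.one_mem
  | n + 1, j, hj => by
      have h1 := hb j hj
      have h2 := swindle_conj s b C hb n (j + 1) (by omega)
      have e : s ^ j * swindle s b (n + 1) * (s ^ j)⁻¹ =
          (s ^ j * b * (s ^ j)⁻¹) * (s ^ (j + 1) * swindle s b n * (s ^ (j + 1))⁻¹) := by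
        simp only [swindle, pow_succ]
        group
      rw [e]
      exact C.mul_mem h1 h2

theorem swindle_conj_one (s b : G) (C : Subgroup G)
    (hb : ∀ i : ℕ, 1 ≤ i → s ^ i * b * (s ^ i)⁻¹ ∈ C) (n : ℕ) :
    s * swindle s b n * s⁻¹ ∈ C := by
  have := swindle_conj s b C hb n 1 le_rfl
  simpa using this

theorem quasi_swindle (hD : ∀ g h : G, |φ (g * h) - φ g - φ h| ≤ D)
    (hn : ∀ (g : G) (n : ℤ), φ (g ^ n) = n * φ g) (s b : G)
    (hb : ∀ i : ℕ, 1 ≤ i → Commute b (s ^ i * b * (s ^ i)⁻¹)) (n : ℕ) :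
    φ (swindle s b n) = n * φ b := by
  induction n with
  | zero => simp [swindle, quasi_one hn]
  | succ n ih =>
      have hc : Commute b (s * swindle s b n * s⁻¹) := by
        have := swindle_conj_one s b (Subgroup.centralizer {b}) (fun i hi => by
          rw [Subgroup.mem_centralizer_singleton_iff]
          exact (hb i hi).symm.eq) n
        rw [Subgroup.mem_centralizer_singleton_iff] at this
        exact this.symm
      simp only [swindle]
      rw [quasi_commute hD hn hc, quasi_conj hD hn, ih]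
      push_cast
      ring

theorem swindle_mul (s b c : G)
    (hc : ∀ i : ℕ, 1 ≤ i → Commute c (s ^ i * b * (s ^ i)⁻¹)) (n : ℕ) :
    swindle s (b * c) n = swindle s b n * swindle s c n := by
  induction n with
  | zero => simp [swindle]
  | succ n ih =>
      have hcc : Commute c (s * swindle s b n * s⁻¹) := by
        have := swindle_conj_one s b (Subgroup.centralizer {c}) (fun i hi => by
          rw [Subgroup.mem_centralizer_singleton_iff]
          exact (hc i hi).symm.eq) n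
        rw [Subgroup.mem_centralizer_singleton_iff] at this
        exact this.symm
      simp only [swindle]
      rw [ih]
      have e1 : s * (swindle s b n * swindle s c n) * s⁻¹ =
          (s * swindle s b n * s⁻¹) * (s * swindle s c n * s⁻¹) := by group
      rw [e1]
      have e2 : b * c * (s * swindle s b n * s⁻¹ * (s * swindle s c n * s⁻¹)) =
          b * (c * (s * swindle s b n * s⁻¹)) * (s * swindle s c n * s⁻¹) := by group
      rw [e2, hcc.eq]
      group

/-- A homogeneous quasimorphism is additive on `b, c` if there is an element `s` such that the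
conjugates of `b, c` by the positive powers of `s` commute with `b, c`. -/
theorem quasi_mul_of_swindle (hD : ∀ g h : G, |φ (g * h) - φ g - φ h| ≤ D)
    (hn : ∀ (g : G) (n : ℤ), φ (g ^ n) = n * φ g) (s b c : G)
    (hbb : ∀ i : ℕ, 1 ≤ i → Commute b (s ^ i * b * (s ^ i)⁻¹))
    (hbc : ∀ i : ℕ, 1 ≤ i → Commute b (s ^ i * c * (s ^ i)⁻¹))
    (hcb : ∀ i : ℕ, 1 ≤ i → Commute c (s ^ i * b * (s ^ i)⁻¹))
    (hcc : ∀ i : ℕ, 1 ≤ i → Commute c (s ^ i * c * (s ^ i)⁻¹)) :
    φ (b * c) = φ b + φ c := by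
  have : φ (b * c) - φ b - φ c = 0 := by
    apply eq_zero_of_mul_bounded (D := D)
    intro n
    have h1 := hD (swindle s b n) (swindle s c n)
    rw [← swindle_mul s b c hcb, quasi_swindle hD hn s b hbb, quasi_swindle hD hn s c hcc,
      quasi_swindle hD hn s (b * c)] at h1
    · have e : (n : ℝ) * (φ (b * c) - φ b - φ c) = n * φ (b * c) - n * φ b - n * φ c := by ring
      rw [e]
      exact h1
    · intro i hi
      have e : s ^ i * (b * c) * (s ^ i)⁻¹ =
          (s ^ i * b * (s ^ i)⁻¹) * (s ^ i * c * (s ^ i)⁻¹) := by group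
      rw [e]
      exact ((hbb i hi).mul_right (hbc i hi)).mul_left ((hcb i hi).mul_right (hcc i hi))
  linarith

/-- Eventually commuting. -/
def EvComm (t x y : G) : Prop := ∃ M : ℕ, ∀ m : ℤ, (M : ℤ) ≤ m → Commute (t ^ m * x * (t ^ m)⁻¹) y

theorem EvComm.one_left (t y : G) : EvComm t 1 y := ⟨0, fun m _ => by simp⟩

theorem EvComm.one_right (t x : G) : EvComm t x 1 := ⟨0, fun _ _ => Commute.one_right _⟩

theorem EvComm.mul_left {t x x' y : G} (h : EvComm t x y) (h' : EvComm t x' y) :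
    EvComm t (x * x') y := by
  obtain ⟨M, hM⟩ := h
  obtain ⟨M', hM'⟩ := h'
  refine ⟨max M M', fun m hm => ?_⟩
  have e : t ^ m * (x * x') * (t ^ m)⁻¹ = (t ^ m * x * (t ^ m)⁻¹) * (t ^ m * x' * (t ^ m)⁻¹) := by
    group
  rw [e]
  push_cast at hm
  exact (hM m (le_trans (le_max_left _ _) hm)).mul_left (hM' m (le_trans (le_max_right _ _) hm))

theorem EvComm.inv_left {t x y : G} (h : EvComm t x y) : EvComm t x⁻¹ y := by
  obtain ⟨M, hM⟩ := h
  refine ⟨M, fun m hm => ?_⟩
  have e : t ^ m * x⁻¹ * (t ^ m)⁻¹ = (t ^ m * x * (t ^ m)⁻¹)⁻¹ := by group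
  rw [e]
  exact (hM m hm).inv_left

theorem EvComm.mul_right {t x y y' : G} (h : EvComm t x y) (h' : EvComm t x y') :
    EvComm t x (y * y') := by
  obtain ⟨M, hM⟩ := h
  obtain ⟨M', hM'⟩ := h'
  refine ⟨max M M', fun m hm => ?_⟩
  push_cast at hm
  exact (hM m (le_trans (le_max_left _ _) hm)).mul_right (hM' m (le_trans (le_max_right _ _) hm))

theorem EvComm.inv_right {t x y : G} (h : EvComm t x y) : EvComm t x y⁻¹ := by
  obtain ⟨M, hM⟩ := h
  exact ⟨M, fun m hm => (hM m hm).inv_right⟩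

theorem EvComm.conj_left {t x y : G} (h : EvComm t x y) (a : ℤ) :
    EvComm t (t ^ a * x * (t ^ a)⁻¹) y := by
  obtain ⟨M, hM⟩ := h
  refine ⟨M + a.natAbs, fun m hm => ?_⟩
  have e : t ^ m * (t ^ a * x * (t ^ a)⁻¹) * (t ^ m)⁻¹ = t ^ (m + a) * x * (t ^ (m + a))⁻¹ := by
    rw [zpow_add]
    group
  rw [e]
  apply hM
  have : -(a.natAbs : ℤ) ≤ a := by omega
  have h2 : ((M + a.natAbs : ℕ) : ℤ) = M + a.natAbs := rfl
  rw [h2] at hm
  omega

theorem EvComm.conj_right {t x y : G} (h : EvComm t x y) (a : ℤ) :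
    EvComm t x (t ^ a * y * (t ^ a)⁻¹) := by
  obtain ⟨M, hM⟩ := h
  refine ⟨M + a.natAbs, fun m hm => ?_⟩
  have h2 : ((M + a.natAbs : ℕ) : ℤ) = M + a.natAbs := rfl
  rw [h2] at hm
  have h1 := hM (m - a) (by
    have : a ≤ (a.natAbs : ℤ) := by omega
    omega)
  have e : t ^ m * x * (t ^ m)⁻¹ = t ^ a * (t ^ (m - a) * x * (t ^ (m - a))⁻¹) * (t ^ a)⁻¹ := by
    rw [zpow_sub]
    group
  rw [e]
  exact (Commute.conj_iff (t ^ a)).2 h1

/-- The subgroup generated by all conjugates of the elements of `K` by the powers of `t`. -/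
def lampGroup (K : Set G) (t : G) : Subgroup G :=
  Subgroup.closure {x | ∃ (a : ℤ) (k : G), k ∈ K ∧ x = t ^ a * k * (t ^ a)⁻¹}

theorem lampGroup_conj {K : Set G} {t x : G} (hx : x ∈ lampGroup K t) (n : ℤ) :
    t ^ n * x * (t ^ n)⁻¹ ∈ lampGroup K t := by
  induction hx using Subgroup.closure_induction with
  | mem x hx =>
      obtain ⟨a, k, hk, rfl⟩ := hx
      refine Subgroup.subset_closure ⟨n + a, k, hk, ?_⟩
      rw [zpow_add]
      group
  | one => simp
  | mul x y _ _ hx hy =>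
      have e : t ^ n * (x * y) * (t ^ n)⁻¹ = (t ^ n * x * (t ^ n)⁻¹) * (t ^ n * y * (t ^ n)⁻¹) := by
        group
      rw [e]
      exact mul_mem hx hy
  | inv x _ hx =>
      have e : t ^ n * x⁻¹ * (t ^ n)⁻¹ = (t ^ n * x * (t ^ n)⁻¹)⁻¹ := by group
      rw [e]
      exact inv_mem hx

theorem lampGroup_evComm {K : Set G} {t : G}
    (hK : ∀ k ∈ K, ∀ k' ∈ K, EvComm t k k') {x y : G}
    (hx : x ∈ lampGroup K t) (hy : y ∈ lampGroup K t) : EvComm t x y := by
  induction hx using Subgroup.closure_induction with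
  | one => exact EvComm.one_left _ _
  | mul x x' _ _ h h' => exact h.mul_left h'
  | inv x _ h => exact h.inv_left
  | mem x hx =>
      obtain ⟨a, k, hk, rfl⟩ := hx
      apply EvComm.conj_left
      induction hy using Subgroup.closure_induction with
      | one => exact EvComm.one_right _ _
      | mul x x' _ _ h h' => exact h.mul_right h'
      | inv x _ h => exact h.inv_right
      | mem y hy =>
          obtain ⟨b, k', hk', rfl⟩ := hy
          exact (hK k hk k' hk').conj_right b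

theorem quasi_mul_lamp (hD : ∀ g h : G, |φ (g * h) - φ g - φ h| ≤ D)
    (hn : ∀ (g : G) (n : ℤ), φ (g ^ n) = n * φ g) {K : Set G} {t : G}
    (hK : ∀ k ∈ K, ∀ k' ∈ K, EvComm t k k') {b c : G}
    (hb : b ∈ lampGroup K t) (hc : c ∈ lampGroup K t) : φ (b * c) = φ b + φ c := by
  obtain ⟨M1, h1⟩ := lampGroup_evComm hK hb hb
  obtain ⟨M2, h2⟩ := lampGroup_evComm hK hc hb
  obtain ⟨M3, h3⟩ := lampGroup_evComm hK hb hc
  obtain ⟨M4, h4⟩ := lampGroup_evComm hK hc hc
  set M : ℕ := M1 + M2 + M3 + M4 with hM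
  have key : ∀ (x y : G) (N : ℕ), N ≤ M →
      (∀ m : ℤ, (N : ℤ) ≤ m → Commute (t ^ m * x * (t ^ m)⁻¹) y) →
      ∀ i : ℕ, 1 ≤ i → Commute y ((t ^ (M : ℤ)) ^ i * x * ((t ^ (M : ℤ)) ^ i)⁻¹) := by
    intro x y N hN h i hi
    have e : (t ^ (M : ℤ)) ^ i = t ^ ((M : ℤ) * i) := by
      rw [zpow_mul, zpow_natCast (t ^ (M : ℤ)) i]
    rw [e]
    apply (h _ _).symm
    have : (M : ℤ) * 1 ≤ (M : ℤ) * i := by
      apply mul_le_mul_of_nonneg_left
      · exact_mod_cast hi
      · positivity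
    have h5 : (N : ℤ) ≤ M := by exact_mod_cast hN
    linarith
  exact quasi_mul_of_swindle hD hn (t ^ (M : ℤ)) b c
    (key b b M1 (by omega) h1) (key c b M2 (by omega) h2) (key b c M3 (by omega) h3)
    (key c c M4 (by omega) h4)

theorem exists_lamp_mul (K : Set G) (t : G) {g : G} (hg : g ∈ Subgroup.closure (insert t K)) :
    ∃ b ∈ lampGroup K t, ∃ n : ℤ, g = b * t ^ n := by
  induction hg using Subgroup.closure_induction with
  | mem x hx =>
      rcases hx with rfl | hx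
      · exact ⟨1, one_mem _, 1, by simp⟩
      · exact ⟨x, Subgroup.subset_closure ⟨0, x, hx, by simp⟩, 0, by simp⟩
  | one => exact ⟨1, one_mem _, 0, by simp⟩
  | mul x y _ _ hx hy =>
      obtain ⟨b, hb, n, rfl⟩ := hx
      obtain ⟨c, hc, m, rfl⟩ := hy
      refine ⟨b * (t ^ n * c * (t ^ n)⁻¹), mul_mem hb (lampGroup_conj hc n), n + m, ?_⟩
      rw [zpow_add]
      group
  | inv x _ hx =>
      obtain ⟨b, hb, n, rfl⟩ := hx
      refine ⟨t ^ (-n) * b⁻¹ * (t ^ (-n))⁻¹, lampGroup_conj (inv_mem hb) (-n), -n, ?_⟩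
      group

theorem quasi_lamp_mul (hD : ∀ g h : G, |φ (g * h) - φ g - φ h| ≤ D)
    (hn : ∀ (g : G) (n : ℤ), φ (g ^ n) = n * φ g) {K : Set G} {t : G}
    (hK : ∀ k ∈ K, ∀ k' ∈ K, EvComm t k k') {b : G}
    (hb : b ∈ lampGroup K t) (n : ℤ) : φ (b * t ^ n) = φ b + n * φ t := by
  have h1 : ∀ m : ℕ, ∃ c ∈ lampGroup K t, (b * t ^ n) ^ m = c * t ^ (n * m) ∧ φ c = m * φ b := by
    intro m
    induction m with
    | zero => exact ⟨1, one_mem _, by simp, by simp [quasi_one hn]⟩
    | succ m ih =>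
        obtain ⟨c, hc, h1, h2⟩ := ih
        refine ⟨b * (t ^ n * c * (t ^ n)⁻¹), mul_mem hb (lampGroup_conj hc n), ?_, ?_⟩
        · rw [pow_succ', h1]
          have : (n * ((m + 1 : ℕ) : ℤ)) = n + n * m := by push_cast; ring
          rw [this, zpow_add]
          group
        · rw [quasi_mul_lamp hD hn hK hb (lampGroup_conj hc n), quasi_conj hD hn, h2]
          push_cast
          ring
  have : φ (b * t ^ n) - φ b - n * φ t = 0 := by
    apply eq_zero_of_mul_bounded (D := D)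
    intro m
    obtain ⟨c, hc, h2, h3⟩ := h1 m
    have h4 := hD c (t ^ (n * m))
    have h5 := hn (b * t ^ n) m
    rw [zpow_natCast, h2] at h5
    rw [h5, h3, hn] at h4
    have e : (m : ℝ) * (φ (b * t ^ n) - φ b - n * φ t) =
        ((m : ℤ) : ℝ) * φ (b * t ^ n) - m * φ b - ((n * m : ℤ) : ℝ) * φ t := by
      push_cast
      ring
    rw [e]
    exact h4
  linarith

/-- Every homogeneous quasimorphism on a group of lamplighter type is a homomorphism. -/
theorem quasi_mul (hD : ∀ g h : G, |φ (g * h) - φ g - φ h| ≤ D)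
    (hn : ∀ (g : G) (n : ℤ), φ (g ^ n) = n * φ g) {K : Set G} {t : G}
    (hK : ∀ k ∈ K, ∀ k' ∈ K, EvComm t k k') (htop : Subgroup.closure (insert t K) = ⊤)
    (g h : G) : φ (g * h) = φ g + φ h := by
  obtain ⟨b, hb, n, rfl⟩ := exists_lamp_mul K t (g := g) (by rw [htop]; trivial)
  obtain ⟨c, hc, m, rfl⟩ := exists_lamp_mul K t (g := h) (by rw [htop]; trivial)
  have e : b * t ^ n * (c * t ^ m) = (b * (t ^ n * c * (t ^ n)⁻¹)) * t ^ (n + m) := by
    rw [zpow_add]
    group
  rw [e, quasi_lamp_mul hD hn hK (mul_mem hb (lampGroup_conj hc n)),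
    quasi_lamp_mul hD hn hK hb, quasi_lamp_mul hD hn hK hc,
    quasi_mul_lamp hD hn hK hb (lampGroup_conj hc n), quasi_conj hD hn]
  push_cast
  ring

end

theorem dimQTilde_eq_zero {G : Type} [Group G] {K : Set G} {t : G}
    (hK : ∀ k ∈ K, ∀ k' ∈ K, EvComm t k k') (htop : Subgroup.closure (insert t K) = ⊤) :
    dimQTilde G = 0 := by
  have h : (realCharacters G).submoduleOf (homogeneousQuasimorphisms G) = ⊤ := by
    rw [eq_top_iff]
    rintro ⟨φ, ⟨D, hD⟩, hn⟩ -
    exact fun g h => quasi_mul hD hn hK htop g h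
  unfold dimQTilde
  rw [rank_zero_iff, Submodule.Quotient.subsingleton_iff]
  exact h

end Pool.Agent.Y456.BigMap
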