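import Pool.Agent.Y456.BigMap.Ends
import Pool.Agent.Y456.BigMap.Quasi
import Pool.Agent.Y456.BigMap.Amen

/-!
# A non-amenable group of mapping classes without quasimorphisms
-/

set_option autoImplicit false

open scoped unitInterval

namespace Pool.Agent.Y456.BigMap

/-! ### Conjugation by the affine maps `z ↦ (z + c) / 3`, `c = 0, 2` -/

theorem affine_apply (c : ℝ) (z : ℂ) : affine c z = (z + c) / 3 := rfl

theorem affine_symm_apply (c : ℝ) (z : ℂ) : (affine c).symm z = 3 * z - c := rfl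

theorem affine_mem {c : ℝ} (hc : c = 0 ∨ c = 2) {z : ℂ} (hz : z ∈ planeCantorSet) :
    affine c z ∈ planeCantorSet := by
  obtain ⟨h1, h2⟩ := mem_planeCantorSet.1 hz
  have e : affine c z = (((z.re + c) / 3 : ℝ) : ℂ) := by
    rw [affine_apply]
    have : z = (z.re : ℂ) := Complex.ext (by simp) (by simp [h1])
    rw [this]
    push_cast
    simp
  rw [e, mem_planeCantorSet]
  refine ⟨by simp, ?_⟩
  rw [Complex.ofReal_re]
  rcases hc with rfl | rfl
  · rw [add_zero]
    exact cantor_div h2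
  · exact cantor_add_div h2

/-- The points of the Cantor set in the smaller strip come from the Cantor set. -/
theorem affine_symm_mem {c : ℝ} (hc : c = 0 ∨ c = 2) {z : ℂ} (hz : z ∈ planeCantorSet)
    (hs : |((affine c).symm z).re - 1 / 2| < 1) : (affine c).symm z ∈ planeCantorSet := by
  obtain ⟨h1, h2⟩ := mem_planeCantorSet.1 hz
  have e : (affine c).symm z = ((3 * z.re - c : ℝ) : ℂ) := by
    rw [affine_symm_apply]
    have : z = (z.re : ℂ) := Complex.ext (by simp) (by simp [h1])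
    rw [this]
    push_cast
    simp
  rw [e] at hs ⊢
  rw [Complex.ofReal_re, abs_lt] at hs
  rw [mem_planeCantorSet]
  refine ⟨by simp, ?_⟩
  rw [Complex.ofReal_re]
  rcases hc with rfl | rfl
  · rcases cantor_cases h2 with ⟨h3, h4⟩ | ⟨h3, h4⟩
    · rwa [sub_zero]
    · exfalso
      linarith [hs.2]
  · rcases cantor_cases h2 with ⟨h3, h4⟩ | ⟨h3, h4⟩
    · exfalso
      linarith [hs.1]
    · exact h4

theorem conj_affine_apply_mem {c : ℝ} (hc : c = 0 ∨ c = 2) (g : stripGroup) {z : ℂ}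
    (hz : z ∈ planeCantorSet) :
    affine c ((g : ℂ ≃ₜ ℂ) ((affine c).symm z)) ∈ planeCantorSet := by
  by_cases hs : |((affine c).symm z).re - 1 / 2| < 1
  · exact affine_mem hc ((g.2.2.1 _).2 (affine_symm_mem hc hz hs))
  · rw [g.2.2.2 _ (not_lt.1 hs), Homeomorph.apply_symm_apply]
    exact hz

theorem conj_affine_mem {c : ℝ} (hc : c = 0 ∨ c = 2) (g : stripGroup) :
    affine c * (g : ℂ ≃ₜ ℂ) * (affine c)⁻¹ ∈ stripGroup := by
  refine ⟨mul_mem (mul_mem (affine_mem_orient c) g.2.1) (inv_mem (affine_mem_orient c)),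
    fun z => ⟨fun hz => ?_, fun hz => conj_affine_apply_mem hc g hz⟩, fun z hz => ?_⟩
  · have h1 := conj_affine_apply_mem hc g⁻¹ hz
    have h2 : affine c (((g⁻¹ : stripGroup) : ℂ ≃ₜ ℂ) ((affine c).symm
        ((affine c * (g : ℂ ≃ₜ ℂ) * (affine c)⁻¹) z))) = z := by
      show affine c ((g : ℂ ≃ₜ ℂ).symm ((affine c).symm
        (affine c ((g : ℂ ≃ₜ ℂ) ((affine c).symm z))))) = z
      simp
    rwa [h2] at h1
  · show affine c ((g : ℂ ≃ₜ ℂ) ((affine c).symm z)) = z
    rw [g.2.2.2, Homeomorph.apply_symm_apply]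
    have e : ((affine c).symm z).re = 3 * z.re - c := by
      rw [affine_symm_apply]
      simp
    rw [e]
    rw [le_abs] at hz ⊢
    rcases hc with rfl | rfl
    · rcases hz with hz | hz
      · left; linarith
      · right; linarith
    · rcases hz with hz | hz
      · left; linarith
      · right; linarith

/-- Conjugation by an affine map. -/
noncomputable def conjAffine {c : ℝ} (hc : c = 0 ∨ c = 2) : stripGroup →* stripGroup where
  toFun g := ⟨affine c * (g : ℂ ≃ₜ ℂ) * (affine c)⁻¹, conj_affine_mem hc g⟩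
  map_one' := by
    apply Subtype.ext
    show affine c * 1 * (affine c)⁻¹ = 1
    group
  map_mul' g h := by
    apply Subtype.ext
    show affine c * ((g : ℂ ≃ₜ ℂ) * h) * (affine c)⁻¹ =
      (affine c * (g : ℂ ≃ₜ ℂ) * (affine c)⁻¹) * (affine c * (h : ℂ ≃ₜ ℂ) * (affine c)⁻¹)
    group

theorem conjAffine_apply {c : ℝ} (hc : c = 0 ∨ c = 2) (g : stripGroup) (z : ℂ) :
    ((conjAffine hc g : stripGroup) : ℂ ≃ₜ ℂ) z = affine c ((g : ℂ ≃ₜ ℂ) ((affine c).symm z)) := rfl

/-- Shrink to the part `[2/3, 7/9]`. -/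
noncomputable def shrink : stripGroup →* stripGroup :=
  (conjAffine (Or.inr rfl)).comp (conjAffine (c := 0) (Or.inl rfl))

theorem shrink_apply (g : stripGroup) (z : ℂ) :
    ((shrink g : stripGroup) : ℂ ≃ₜ ℂ) z = ((g : ℂ ≃ₜ ℂ) (9 * z - 6)) / 9 + 2 / 3 := by
  show affine 2 (affine 0 ((g : ℂ ≃ₜ ℂ) ((affine 0).symm ((affine 2).symm z)))) = _
  simp only [affine_apply, affine_symm_apply]
  have : (3 : ℂ) * (3 * z - ((2 : ℝ) : ℂ)) - ((0 : ℝ) : ℂ) = 9 * z - 6 := by
    push_cast
    ring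
  rw [this]
  push_cast
  ring

theorem shrink_support (g : stripGroup) {z : ℂ} (hz : z.re ≤ 11 / 18 ∨ 15 / 18 ≤ z.re) :
    ((shrink g : stripGroup) : ℂ ≃ₜ ℂ) z = z := by
  rw [shrink_apply, g.2.2.2]
  · ring
  · have e : (9 * z - 6 : ℂ).re = 9 * z.re - 6 := by simp
    rw [e, le_abs]
    rcases hz with h | h
    · right; linarith
    · left; linarith

/-! ### The generators -/

/-- The stretch. -/
noncomputable def gStretch : stripGroup :=
  ⟨stretch, stretch_mem_orient, fun z => by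
    rw [mem_planeCantorSet, mem_planeCantorSet, stretch_im, stretch_re]
    refine and_congr_right fun _ => ⟨fun h => ?_, stretchFun_mem⟩
    have := stretchInv_mem h
    rwa [stretchInv_stretchFun] at this, fun z hz => by
    apply Complex.ext _ (stretch_im z)
    rw [stretch_re]
    rw [le_abs] at hz
    rcases hz with h | h
    · exact stretchFun_of_ge (by linarith)
    · exact stretchFun_of_le (by linarith)⟩

theorem norm_sub_half_of_mem {z : ℂ} (hz : z ∈ planeCantorSet) : ‖z - 1 / 2‖ ≤ 1 / 2 := by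
  obtain ⟨h1, h2⟩ := mem_planeCantorSet.1 hz
  have h3 := cantor_nonneg h2
  have h4 := cantor_le_one h2
  have e : z - 1 / 2 = ((z.re - 1 / 2 : ℝ) : ℂ) := by
    apply Complex.ext
    · simp
    · simp [h1]
  rw [e, Complex.norm_real, Real.norm_eq_abs, abs_le]
  constructor <;> linarith

theorem one_sub_mem {z : ℂ} (hz : z ∈ planeCantorSet) : 1 - z ∈ planeCantorSet := by
  rw [mem_planeCantorSet] at hz ⊢
  refine ⟨by simp [hz.1], ?_⟩
  have : (1 - z).re = 1 - z.re := by simp
  rw [this]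
  exact cantor_symm hz.2

/-- The half twist. -/
noncomputable def gTwist : stripGroup :=
  ⟨twist, twist_mem_orient, fun z => by
    constructor
    · intro h
      have h1 := twist_symm_of_le (norm_sub_half_of_mem h)
      rw [Homeomorph.symm_apply_apply] at h1
      rw [h1]
      exact one_sub_mem h
    · intro h
      rw [twist_of_le (norm_sub_half_of_mem h)]
      exact one_sub_mem h, fun z hz => by
    apply twist_of_ge
    refine hz.trans ?_
    have := Complex.abs_re_le_norm (z - 1 / 2)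
    simpa using this⟩

/-- The half twist of the left half of the Cantor set. -/
noncomputable def gTwistLeft : stripGroup := conjAffine (c := 0) (Or.inl rfl) gTwist

theorem gStretch_apply (z : ℂ) : (gStretch : ℂ ≃ₜ ℂ) z = stretch z := rfl

theorem gTwist_of_mem {z : ℂ} (hz : z ∈ planeCantorSet) : (gTwist : ℂ ≃ₜ ℂ) z = 1 - z :=
  twist_of_le (norm_sub_half_of_mem hz)

theorem gTwistLeft_of_mem {z : ℂ} (hz : z ∈ planeCantorSet) (h : z.re < 1 / 2) :
    (gTwistLeft : ℂ ≃ₜ ℂ) z = 1 / 3 - z := by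
  show affine 0 ((gTwist : ℂ ≃ₜ ℂ) ((affine 0).symm z)) = _
  rw [gTwist_of_mem]
  · rw [affine_apply, affine_symm_apply]
    push_cast
    ring
  · apply affine_symm_mem (Or.inl rfl) hz
    rw [affine_symm_apply]
    have := cantor_nonneg (mem_planeCantorSet.1 hz).2
    have e : ((3 : ℂ) * z - ((0 : ℝ) : ℂ)).re = 3 * z.re := by simp
    rw [e, abs_lt]
    constructor <;> linarith

/-! ### Disjoint supports -/

theorem commute_of_disjoint {a b : ℂ ≃ₜ ℂ} (A B : Set ℂ) (hAB : Disjoint A B)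
    (ha : ∀ z, z ∉ A → a z = z) (hb : ∀ z, z ∉ B → b z = z) : a * b = b * a := by
  have haA : ∀ z ∈ A, a z ∈ A := by
    intro z hz
    by_contra h
    have := a.injective (ha _ h)
    rw [this] at h
    exact h hz
  have hbB : ∀ z ∈ B, b z ∈ B := by
    intro z hz
    by_contra h
    have := b.injective (hb _ h)
    rw [this] at h
    exact h hz
  ext z
  show a (b z) = b (a z)
  by_cases hA : z ∈ A
  · have hB : z ∉ B := fun h => hAB.le_bot ⟨hA, h⟩
    have hB' : a z ∉ B := fun h => hAB.le_bot ⟨haA z hA, h⟩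
    rw [hb z hB, hb _ hB']
  · by_cases hB : z ∈ B
    · have hA' : b z ∉ A := fun h => hAB.le_bot ⟨h, hbB z hB⟩
      rw [ha z hA, ha _ hA']
    · rw [ha z hA, hb z hB, ha z hA]

theorem stretch_pow_re (n : ℕ) {z : ℂ} (hz : z.re < 15 / 18) :
    (((gStretch : stripGroup) ^ (n + 1) : stripGroup) : ℂ ≃ₜ ℂ) z ∈ {w : ℂ | w.re < 1 / 2} := by
  induction n with
  | zero =>
      simp only [zero_add, pow_one]
      show (stretch z).re < 1 / 2
      rw [stretch_re]
      exact stretchFun_lt_half hz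
  | succ n ih =>
      rw [pow_succ']
      show (stretch ((((gStretch : stripGroup) ^ (n + 1) : stripGroup) : ℂ ≃ₜ ℂ) z)).re < 1 / 2
      rw [stretch_re]
      exact (stretchFun_le _).trans_lt ih

theorem evComm_shrink (g h : stripGroup) : EvComm gStretch (shrink g) (shrink h) := by
  refine ⟨1, fun m hm => ?_⟩
  obtain ⟨n, rfl⟩ : ∃ n : ℕ, m = ((n + 1 : ℕ) : ℤ) := ⟨(m - 1).toNat, by push_cast at hm ⊢; omega⟩
  rw [zpow_natCast]
  apply Subtype.ext
  apply commute_of_disjoint {z : ℂ | z.re < 1 / 2} {z : ℂ | 11 / 18 < z.re}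
  · rw [Set.disjoint_left]
    intro z h1 h2
    have h1' : z.re < 1 / 2 := h1
    have h2' : 11 / 18 < z.re := h2
    linarith
  · intro z hz
    set T : stripGroup := gStretch ^ (n + 1) with hT
    show (T : ℂ ≃ₜ ℂ) (((shrink g : stripGroup) : ℂ ≃ₜ ℂ) ((T : ℂ ≃ₜ ℂ).symm z)) = z
    rw [shrink_support, Homeomorph.apply_symm_apply]
    right
    by_contra hlt
    rw [not_le] at hlt
    have h1 := stretch_pow_re n hlt
    rw [← hT, Homeomorph.apply_symm_apply] at h1
    exact hz h1
  · intro z hz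
    apply shrink_support
    left
    exact not_lt.1 hz

/-! ### The group -/

/-- The three lamps. -/
def lamps : Set stripGroup := {shrink gStretch, shrink gTwist, shrink gTwistLeft}

/-- The group of mapping classes. -/
noncomputable def bigGroup : Subgroup (MappingClassGroup planeCantorSet) :=
  Subgroup.closure (toMap '' insert gStretch lamps)

/-- The elements of the group. -/
noncomputable def mk (g : stripGroup) (hg : g ∈ insert gStretch lamps) : bigGroup :=
  ⟨toMap g, Subgroup.subset_closure ⟨g, hg, rfl⟩⟩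

theorem bigGroup_fg : bigGroup.FG := by
  have hfin : (insert gStretch lamps : Set stripGroup).Finite := by
    unfold lamps
    exact Set.toFinite _
  exact (Subgroup.fg_iff _).2 ⟨_, rfl, hfin.image _⟩

theorem EvComm.map {G H : Type} [Group G] [Group H] (f : G →* H) {t x y : G} (h : EvComm t x y) :
    EvComm (f t) (f x) (f y) := by
  obtain ⟨M, hM⟩ := h
  refine ⟨M, fun m hm => ?_⟩
  rw [← map_zpow, ← map_inv, ← map_mul, ← map_mul]
  exact (hM m hm).map f

theorem rank_bigGroup : dimQTilde bigGroup = 0 := by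
  have hs : gStretch ∈ insert gStretch lamps := Set.mem_insert _ _
  refine dimQTilde_eq_zero (G := bigGroup) (t := mk gStretch hs)
    (K := {x | ∃ (g : stripGroup) (hg : g ∈ lamps), x = mk g (Set.mem_insert_of_mem _ hg)}) ?_ ?_
  · have hl : ∀ g ∈ lamps, ∃ h, g = shrink h := by
      rintro g (rfl | rfl | rfl)
      exacts [⟨_, rfl⟩, ⟨_, rfl⟩, ⟨_, rfl⟩]
    rintro _ ⟨g, hg, rfl⟩ _ ⟨h, hh, rfl⟩
    obtain ⟨g', hg'⟩ := hl g hg
    obtain ⟨h', hh'⟩ := hl h hh
    have h1 : EvComm gStretch g h := by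
      rw [hg', hh']
      exact evComm_shrink g' h'
    obtain ⟨M, hM⟩ := h1.map toMap
    refine ⟨M, fun m hm => ?_⟩
    have h2 := hM m hm
    apply Subtype.ext
    exact h2
  · rw [eq_top_iff]
    rintro ⟨x, hx⟩ -
    have key : ∀ y (hy : y ∈ bigGroup), (⟨y, hy⟩ : bigGroup) ∈ Subgroup.closure
        (insert (mk gStretch hs)
          {x : bigGroup | ∃ (g : stripGroup) (hg : g ∈ lamps), x = mk g (Set.mem_insert_of_mem _ hg)}) := by
      intro y hy
      unfold bigGroup at hy
      induction hy using Subgroup.closure_induction with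
      | mem y hy =>
          obtain ⟨g, hg, rfl⟩ := hy
          apply Subgroup.subset_closure
          rcases hg with rfl | hg
          · exact Or.inl rfl
          · exact Or.inr ⟨g, hg, rfl⟩
      | one => exact one_mem _
      | mul y z hy hz h1 h2 =>
          have := mul_mem h1 h2
          exact this
      | inv y hy h1 =>
          have := inv_mem h1
          exact this
    exact key x hx

/-! ### Non-amenability -/

/-- The part of the Cantor set in `[2/3, 7/9]`, in its own coordinate. -/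
noncomputable def small (z : ℂ) : ℂ := z / 9 + 2 / 3

theorem small_mem {z : ℂ} (hz : z ∈ planeCantorSet) : small z ∈ planeCantorSet := by
  have h1 := affine_mem (Or.inr rfl) (affine_mem (c := 0) (Or.inl rfl) hz)
  have e : small z = affine 2 (affine 0 z) := by
    rw [affine_apply, affine_apply]
    unfold small
    push_cast
    ring
  rw [e]
  exact h1

theorem shrink_small (g : stripGroup) (z : ℂ) :
    ((shrink g : stripGroup) : ℂ ≃ₜ ℂ) (small z) = small ((g : ℂ ≃ₜ ℂ) z) := by
  rw [shrink_apply]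
  unfold small
  have : 9 * (z / 9 + 2 / 3) - 6 = z := by ring
  rw [this]

theorem small_injective : Function.Injective small := by
  intro z w h
  unfold small at h
  have h1 : z / 9 = w / 9 := add_right_cancel h
  have h2 : z / 9 * 9 = w / 9 * 9 := by rw [h1]
  rwa [div_mul_cancel₀ z (by norm_num), div_mul_cancel₀ w (by norm_num)] at h2

/-- The subgroup generated by the lamps. -/
noncomputable def lampMap : Subgroup (MappingClassGroup planeCantorSet) :=
  (Subgroup.closure ({gStretch, gTwist, gTwistLeft} : Set stripGroup)).map (toMap.comp shrink)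

theorem lampMap_le : lampMap ≤ bigGroup := by
  unfold lampMap bigGroup
  rw [MonoidHom.map_closure, Subgroup.closure_le]
  rintro _ ⟨g, hg, rfl⟩
  apply Subgroup.subset_closure
  refine ⟨shrink g, ?_, rfl⟩
  rcases hg with rfl | rfl | rfl
  · exact Or.inr (Or.inl rfl)
  · exact Or.inr (Or.inr (Or.inl rfl))
  · exact Or.inr (Or.inr (Or.inr rfl))

/-- The set of the mapping classes which move the base point into `Y`. -/
def cell (Y : Set ℂ) : Set lampMap :=
  {a | ∃ g : stripGroup, (a : MappingClassGroup planeCantorSet) = toMap (shrink g) ∧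
    g ∈ Subgroup.closure ({gStretch, gTwist, gTwistLeft} : Set stripGroup) ∧
    (g : ℂ ≃ₜ ℂ) 0 ∈ Y}

theorem zero_mem_planeCantorSet : (0 : ℂ) ∈ planeCantorSet :=
  mem_planeCantorSet.2 ⟨rfl, zero_mem_cantorSet⟩

theorem eval_eq {g h : stripGroup} (e : toMap (shrink g) = toMap (shrink h)) :
    (g : ℂ ≃ₜ ℂ) 0 = (h : ℂ ≃ₜ ℂ) 0 := by
  have h1 := apply_eq_of_toMap_eq e (small_mem zero_mem_planeCantorSet)
  rw [shrink_small, shrink_small] at h1
  exact small_injective h1

theorem cell_univ : cell planeCantorSet = Set.univ := by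
  rw [Set.eq_univ_iff_forall]
  rintro ⟨a, g, hg, rfl⟩
  exact ⟨g, rfl, hg, (g.2.2.1 0).2 zero_mem_planeCantorSet⟩

theorem cell_union (Y Z : Set ℂ) : cell Y ∪ cell Z = cell (Y ∪ Z) := by
  ext a
  constructor
  · rintro (⟨g, h1, h2, h3⟩ | ⟨g, h1, h2, h3⟩)
    · exact ⟨g, h1, h2, Or.inl h3⟩
    · exact ⟨g, h1, h2, Or.inr h3⟩
  · rintro ⟨g, h1, h2, h3 | h3⟩
    · exact Or.inl ⟨g, h1, h2, h3⟩
    · exact Or.inr ⟨g, h1, h2, h3⟩

theorem cell_disjoint {Y Z : Set ℂ} (h : Disjoint Y Z) : Disjoint (cell Y) (cell Z) := by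
  rw [Set.disjoint_left]
  rintro a ⟨g, h1, _, h3⟩ ⟨g', h1', _, h3'⟩
  have := eval_eq (h1.symm.trans h1')
  rw [this] at h3
  exact h.le_bot ⟨h3, h3'⟩

/-- The elements of the lamp group. -/
noncomputable def lampEl (k : stripGroup)
    (hk : k ∈ Subgroup.closure ({gStretch, gTwist, gTwistLeft} : Set stripGroup)) : lampMap :=
  ⟨toMap (shrink k), k, hk, rfl⟩

theorem cell_translate {k : stripGroup}
    (hk : k ∈ Subgroup.closure ({gStretch, gTwist, gTwistLeft} : Set stripGroup)) {Y Z : Set ℂ}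
    (hYZ : (k : ℂ ≃ₜ ℂ) '' Y = Z) : (fun x => lampEl k hk * x) '' cell Y = cell Z := by
  ext a
  constructor
  · rintro ⟨b, ⟨g, h1, h2, h3⟩, rfl⟩
    refine ⟨k * g, ?_, mul_mem hk h2, ?_⟩
    · show toMap (shrink k) * (b : MappingClassGroup planeCantorSet) = _
      rw [h1, map_mul, map_mul]
    · rw [← hYZ]
      exact ⟨(g : ℂ ≃ₜ ℂ) 0, h3, rfl⟩
  · rintro ⟨g, h1, h2, h3⟩
    refine ⟨lampEl (k⁻¹ * g) (mul_mem (inv_mem hk) h2),
      ⟨k⁻¹ * g, rfl, mul_mem (inv_mem hk) h2, ?_⟩, ?_⟩
    · rw [← hYZ] at h3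
      obtain ⟨y, hy, hy'⟩ := h3
      show (k : ℂ ≃ₜ ℂ).symm ((g : ℂ ≃ₜ ℂ) 0) ∈ Y
      rw [← hy', Homeomorph.symm_apply_apply]
      exact hy
    · apply Subtype.ext
      show toMap (shrink k) * toMap (shrink (k⁻¹ * g)) = a
      rw [h1, ← map_mul, ← map_mul, mul_inv_cancel_left]

theorem mem_gen (k : stripGroup) (h : k ∈ ({gStretch, gTwist, gTwistLeft} : Set stripGroup)) :
    k ∈ Subgroup.closure ({gStretch, gTwist, gTwistLeft} : Set stripGroup) :=
  Subgroup.subset_closure h

theorem re_ne_half {z : ℂ} (hz : z ∈ planeCantorSet) : z.re ≠ 1 / 2 := by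
  intro h
  rcases cantor_cases (mem_planeCantorSet.1 hz).2 with ⟨h1, _⟩ | ⟨h1, _⟩ <;> linarith

theorem re_ne_sixth {z : ℂ} (hz : z ∈ planeCantorSet) : z.re ≠ 1 / 6 := by
  intro h
  rcases cantor_cases (mem_planeCantorSet.1 hz).2 with ⟨h1, h2⟩ | ⟨h1, _⟩
  · rcases cantor_cases h2 with ⟨h3, _⟩ | ⟨h3, _⟩ <;> linarith
  · linarith

theorem not_isAmenable_lampMap : ¬ IsAmenable lampMap := by
  have hS := mem_gen gStretch (Or.inl rfl)
  have hT := mem_gen gTwist (Or.inr (Or.inl rfl))
  have hL := mem_gen gTwistLeft (Or.inr (Or.inr rfl))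
  refine not_isAmenable_of_paradox (lampEl gStretch hS) (lampEl gTwist hT) (lampEl gTwistLeft hL)
    (cell {z | z ∈ planeCantorSet ∧ z.re < 1 / 2}) (cell {z | z ∈ planeCantorSet ∧ 1 / 2 < z.re})
    (cell {z | z ∈ planeCantorSet ∧ z.re < 1 / 6})
    (cell {z | z ∈ planeCantorSet ∧ 1 / 6 < z.re ∧ z.re < 1 / 2}) ?_ ?_ ?_ ?_ ?_ ?_ ?_
  · rw [cell_union, ← cell_univ]
    congr 1
    ext z
    constructor
    · rintro (h | h) <;> exact h.1
    · intro h
      rcases lt_or_gt_of_ne (re_ne_half h) with h1 | h1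
      · exact Or.inl ⟨h, h1⟩
      · exact Or.inr ⟨h, h1⟩
  · apply cell_disjoint
    rw [Set.disjoint_left]
    rintro z ⟨_, h1⟩ ⟨_, h2⟩
    linarith
  · rw [cell_union]
    congr 1
    ext z
    constructor
    · rintro (⟨h, h1⟩ | ⟨h, h1, h2⟩)
      · exact ⟨h, by linarith⟩
      · exact ⟨h, h2⟩
    · rintro ⟨h, h1⟩
      rcases lt_or_gt_of_ne (re_ne_sixth h) with h2 | h2
      · exact Or.inl ⟨h, h2⟩
      · exact Or.inr ⟨h, h2, h1⟩
  · apply cell_disjoint
    rw [Set.disjoint_left]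
    rintro z ⟨_, h1⟩ ⟨_, h2, _⟩
    linarith
  · apply cell_translate
    ext z
    constructor
    · rintro ⟨y, ⟨hy, hy'⟩, rfl⟩
      rw [gTwist_of_mem hy]
      refine ⟨one_sub_mem hy, ?_⟩
      have : (1 - y).re = 1 - y.re := by simp
      rw [this]
      linarith
    · rintro ⟨hz, hz'⟩
      refine ⟨1 - z, ⟨one_sub_mem hz, ?_⟩, ?_⟩
      · have : (1 - z).re = 1 - z.re := by simp
        rw [this]
        linarith
      · rw [gTwist_of_mem (one_sub_mem hz)]
        ring
  · apply cell_translate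
    ext z
    constructor
    · rintro ⟨y, ⟨hy, hy'⟩, rfl⟩
      refine ⟨(gStretch.2.2.1 y).2 hy, ?_⟩
      rw [gStretch_apply, stretch_re, stretchFun_lt_sixth_iff]
      exact hy'
    · rintro ⟨hz, hz'⟩
      obtain ⟨y, rfl⟩ := (gStretch : ℂ ≃ₜ ℂ).surjective z
      refine ⟨y, ⟨(gStretch.2.2.1 y).1 hz, ?_⟩, rfl⟩
      rw [gStretch_apply, stretch_re, stretchFun_lt_sixth_iff] at hz'
      exact hz'
  · apply cell_translate
    have hle : ∀ z : ℂ, z ∈ planeCantorSet → z.re < 1 / 2 → z.re ≤ 1 / 3 := by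
      intro z hz h
      rcases cantor_cases (mem_planeCantorSet.1 hz).2 with ⟨h1, _⟩ | ⟨h1, _⟩ <;> linarith
    have hmem : ∀ z : ℂ, z ∈ planeCantorSet → z.re < 1 / 2 → 1 / 3 - z ∈ planeCantorSet := by
      intro z hz h
      rw [← gTwistLeft_of_mem hz h]
      exact (gTwistLeft.2.2.1 z).2 hz
    have hre : ∀ z : ℂ, (1 / 3 - z).re = 1 / 3 - z.re := by
      intro z
      simp
    ext z
    constructor
    · rintro ⟨y, ⟨hy, hy'⟩, rfl⟩
      have h0 := cantor_nonneg (mem_planeCantorSet.1 hy).2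
      have hy2 : y.re < 1 / 2 := by linarith
      rw [gTwistLeft_of_mem hy hy2]
      refine ⟨hmem y hy hy2, ?_, ?_⟩ <;> rw [hre] <;> linarith
    · rintro ⟨hz, hz1, hz2⟩
      have h0 := hle z hz hz2
      have h1 : (1 / 3 - z).re < 1 / 2 := by
        rw [hre]
        linarith
      refine ⟨1 / 3 - z, ⟨hmem z hz hz2, ?_⟩, ?_⟩
      · rw [hre]
        linarith
      · rw [gTwistLeft_of_mem (hmem z hz hz2) h1]
        ring

theorem not_isAmenable_bigGroup : ¬ IsAmenable bigGroup := fun h =>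
  not_isAmenable_lampMap (h.of_injective (Subgroup.inclusion lampMap_le)
    (Subgroup.inclusion_injective lampMap_le))

theorem main : ∃ H : Subgroup (MappingClassGroup planeCantorSet),
    H.FG ∧ ¬ IsAmenable H ∧ dimQTilde H = 0 :=
  ⟨bigGroup, bigGroup_fg, not_isAmenable_bigGroup, rank_bigGroup⟩

end Pool.Agent.Y456.BigMap
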