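import Pool.Agent.Y456.BigMap.Defs

/-!
# Homeomorphisms of the plane: orientation, the ternary Cantor set, stretches and twists
-/

set_option autoImplicit false

open scoped unitInterval

namespace Pool.Agent.Y456.BigMap

/-! ### Orientation -/

/-- The loop `γ - p` in `ℂ ∖ {0}`. -/
noncomputable def diffLoop (γ : C(Circle, ℂ)) (p : ℂ) (h : ∀ z, γ z ≠ p) : C(Circle, {z : ℂ // z ≠ 0}) :=
  ⟨fun z => ⟨γ z - p, sub_ne_zero.2 (h z)⟩, by fun_prop⟩

/-- The standard loop. -/
noncomputable def stdLoop : C(Circle, {z : ℂ // z ≠ 0}) :=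
  ⟨fun z => ⟨(z : ℂ), Circle.coe_ne_zero z⟩, by fun_prop⟩

theorem windsOnce_iff (γ : C(Circle, ℂ)) (p : ℂ) :
    WindsOnce γ p ↔ ∃ h : ∀ z, γ z ≠ p, (diffLoop γ p h).Homotopic stdLoop := by
  constructor
  · rintro ⟨γ', h1, h2⟩
    have h : ∀ z, γ z ≠ p := by
      intro z hz
      have := h1 z
      rw [hz, sub_self] at this
      exact (γ' z).2 this
    refine ⟨h, ?_⟩
    have e : diffLoop γ p h = γ' := by
      ext z
      exact (h1 z).symm
    rw [e]
    exact h2
  · rintro ⟨h, h1⟩
    exact ⟨diffLoop γ p h, fun z => rfl, h1⟩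

/-- The group of the homeomorphisms of the plane which do not change the relation
`WindsOnce`. -/
def orientGroup : Subgroup (ℂ ≃ₜ ℂ) where
  carrier := {g | ∀ (γ : C(Circle, ℂ)) (p : ℂ),
    WindsOnce ((⟨g, g.continuous⟩ : C(ℂ, ℂ)).comp γ) (g p) ↔ WindsOnce γ p}
  mul_mem' := by
    intro g h hg hh γ p
    exact (hg ((⟨h, h.continuous⟩ : C(ℂ, ℂ)).comp γ) (h p)).trans (hh γ p)
  one_mem' := fun γ p => Iff.rfl
  inv_mem' := by
    intro g hg γ p
    have := hg ((⟨g.symm, g.symm.continuous⟩ : C(ℂ, ℂ)).comp γ) (g.symm p)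
    have e1 : (⟨g, g.continuous⟩ : C(ℂ, ℂ)).comp
        ((⟨g.symm, g.symm.continuous⟩ : C(ℂ, ℂ)).comp γ) = γ := by
      ext z
      simp
    rw [e1, g.apply_symm_apply] at this
    exact this.symm

theorem mem_orientGroup_of_isotopy (g : ℂ ≃ₜ ℂ) (F : C(I × ℂ, ℂ))
    (hinj : ∀ t : I, Function.Injective fun z => F (t, z)) (h0 : ∀ z, F (0, z) = z)
    (h1 : ∀ z, F (1, z) = g z) : g ∈ orientGroup := by
  intro γ p
  have key : ∀ (h : ∀ z, γ z ≠ p)
      (h' : ∀ z, ((⟨g, g.continuous⟩ : C(ℂ, ℂ)).comp γ) z ≠ g p),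
      (diffLoop γ p h).Homotopic (diffLoop ((⟨g, g.continuous⟩ : C(ℂ, ℂ)).comp γ) (g p) h') := by
    intro h h'
    refine ⟨⟨⟨fun q => ⟨F (q.1, γ q.2) - F (q.1, p), ?_⟩, ?_⟩, fun z => ?_, fun z => ?_⟩⟩
    · exact sub_ne_zero.2 fun e => h q.2 (hinj q.1 e)
    · fun_prop
    · ext
      show F (0, γ z) - F (0, p) = γ z - p
      rw [h0, h0]
    · ext
      show F (1, γ z) - F (1, p) = g (γ z) - g p
      rw [h1, h1]
  rw [windsOnce_iff, windsOnce_iff]
  constructor
  · rintro ⟨h', hh⟩
    have h : ∀ z, γ z ≠ p := fun z e => h' z (by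
      show g (γ z) = g p
      rw [e])
    exact ⟨h, (key h h').trans hh⟩
  · rintro ⟨h, hh⟩
    have h' : ∀ z, ((⟨g, g.continuous⟩ : C(ℂ, ℂ)).comp γ) z ≠ g p := fun z e =>
      h z (g.injective e)
    exact ⟨h', (key h h').symm.trans hh⟩

/-! ### The Cantor set -/

theorem mem_planeCantorSet {z : ℂ} : z ∈ planeCantorSet ↔ z.im = 0 ∧ z.re ∈ cantorSet := by
  constructor
  · rintro ⟨x, hx, rfl⟩
    exact ⟨Complex.ofReal_im x, by simpa using hx⟩
  · rintro ⟨h1, h2⟩
    exact ⟨z.re, h2, Complex.ext (by simp) (by simp [h1])⟩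

theorem cantor_nonneg {x : ℝ} (hx : x ∈ cantorSet) : 0 ≤ x := (cantorSet_subset_unitInterval hx).1

theorem cantor_le_one {x : ℝ} (hx : x ∈ cantorSet) : x ≤ 1 := (cantorSet_subset_unitInterval hx).2

theorem cantor_div {x : ℝ} (hx : x ∈ cantorSet) : x / 3 ∈ cantorSet := by
  rw [cantorSet_eq_union_halves]
  exact Or.inl ⟨x, hx, rfl⟩

theorem cantor_add_div {x : ℝ} (hx : x ∈ cantorSet) : (x + 2) / 3 ∈ cantorSet := by
  rw [cantorSet_eq_union_halves]
  exact Or.inr ⟨x, hx, by show (2 + x) / 3 = _; ring⟩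

theorem cantor_cases {x : ℝ} (hx : x ∈ cantorSet) :
    (x ≤ 1 / 3 ∧ 3 * x ∈ cantorSet) ∨ (2 / 3 ≤ x ∧ 3 * x - 2 ∈ cantorSet) := by
  rw [cantorSet_eq_union_halves] at hx
  rcases hx with ⟨y, hy, rfl⟩ | ⟨y, hy, rfl⟩
  · left
    have := cantor_le_one hy
    refine ⟨by show y / 3 ≤ 1 / 3; linarith, ?_⟩
    show 3 * (y / 3) ∈ cantorSet
    rw [mul_div_cancel₀ y (by norm_num : (3 : ℝ) ≠ 0)]
    exact hy
  · right
    have := cantor_nonneg hy
    refine ⟨by show 2 / 3 ≤ (2 + y) / 3; linarith, ?_⟩
    show 3 * ((2 + y) / 3) - 2 ∈ cantorSet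
    have : 3 * ((2 + y) / 3) - 2 = y := by ring
    rw [this]
    exact hy

theorem preCantor_symm (n : ℕ) {x : ℝ} (hx : x ∈ preCantorSet n) : 1 - x ∈ preCantorSet n := by
  induction n generalizing x with
  | zero =>
      rw [preCantorSet_zero] at hx ⊢
      exact ⟨by linarith [hx.2], by linarith [hx.1]⟩
  | succ n ih =>
      rw [preCantorSet_succ] at hx ⊢
      rcases hx with ⟨y, hy, rfl⟩ | ⟨y, hy, rfl⟩
      · exact Or.inr ⟨1 - y, ih hy, by show (2 + (1 - y)) / 3 = 1 - y / 3; ring⟩
      · exact Or.inl ⟨1 - y, ih hy, by show (1 - y) / 3 = 1 - (2 + y) / 3; ring⟩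

theorem cantor_symm {x : ℝ} (hx : x ∈ cantorSet) : 1 - x ∈ cantorSet := by
  rw [cantorSet, Set.mem_iInter] at hx ⊢
  exact fun n => preCantor_symm n (hx n)

theorem cantor_totallyDisconnected : IsTotallyDisconnected cantorSet := by
  have h : IsTotallyDisconnected (Set.univ : Set cantorSet) := by
    apply cantorSetHomeomorphNatToBool.isEmbedding.isTotallyDisconnected
    intro t _ ht
    exact isTotallyDisconnected_of_totallyDisconnectedSpace _ t (Set.subset_univ _) ht
  have := (Topology.IsEmbedding.isTotallyDisconnected_image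
    (Topology.IsEmbedding.subtypeVal (p := fun x => x ∈ cantorSet)) (s := Set.univ)).2 h
  simpa using this

theorem exists_not_mem_cantor {x y : ℝ} (h : x < y) : ∃ s, x < s ∧ s < y ∧ s ∉ cantorSet := by
  by_contra hc
  push Not at hc
  have h1 : Set.Ioo x y ⊆ cantorSet := fun s hs => hc s hs.1 hs.2
  have h2 := cantor_totallyDisconnected _ h1 isPreconnected_Ioo
  have m1 : (2 * x + y) / 3 ∈ Set.Ioo x y := ⟨by linarith, by linarith⟩
  have m2 : (x + 2 * y) / 3 ∈ Set.Ioo x y := ⟨by linarith, by linarith⟩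
  have h4 : (2 * x + y) / 3 = (x + 2 * y) / 3 := h2 m1 m2
  linarith

/-! ### The stretch -/

/-- The piecewise linear homeomorphism of the line. -/
noncomputable def stretchFun (x : ℝ) : ℝ := min x (max (x / 3) (max (x - 4 / 9) (3 * x - 2)))

/-- Its inverse. -/
noncomputable def stretchInv (y : ℝ) : ℝ := max y (min (3 * y) (min (y + 4 / 9) ((y + 2) / 3)))

theorem stretchInv_stretchFun (x : ℝ) : stretchInv (stretchFun x) = x := by
  unfold stretchInv stretchFun
  simp only [min_def, max_def]
  split_ifs <;> linarith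

theorem stretchFun_stretchInv (x : ℝ) : stretchFun (stretchInv x) = x := by
  unfold stretchInv stretchFun
  simp only [min_def, max_def]
  split_ifs <;> linarith

theorem stretchFun_le (x : ℝ) : stretchFun x ≤ x := min_le_left _ _

theorem stretchFun_strictMono : StrictMono stretchFun := by
  intro x y h
  unfold stretchFun
  simp only [min_def, max_def]
  split_ifs <;> linarith

theorem stretchFun_continuous : Continuous stretchFun := by
  unfold stretchFun
  fun_prop

theorem stretchInv_continuous : Continuous stretchInv := by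
  unfold stretchInv
  fun_prop

theorem stretchFun_lt_half {x : ℝ} (h : x < 15 / 18) : stretchFun x < 1 / 2 := by
  unfold stretchFun
  simp only [min_def, max_def]
  split_ifs <;> linarith

theorem stretchFun_of_le {x : ℝ} (h : x ≤ 0) : stretchFun x = x := by
  unfold stretchFun
  simp only [min_def, max_def]
  split_ifs <;> linarith

theorem stretchFun_of_ge {x : ℝ} (h : 1 ≤ x) : stretchFun x = x := by
  unfold stretchFun
  simp only [min_def, max_def]
  split_ifs <;> linarith

theorem stretchFun_lt_sixth_iff (x : ℝ) :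
    stretchFun x < 1 / 6 ↔ x < 1 / 2 := by
  unfold stretchFun
  simp only [min_def, max_def]
  split_ifs <;> constructor <;> intro h <;> linarith

theorem stretchFun_mem {x : ℝ} (hx : x ∈ cantorSet) : stretchFun x ∈ cantorSet := by
  have h0 := cantor_nonneg hx
  have h1 := cantor_le_one hx
  rcases cantor_cases hx with ⟨h2, h3⟩ | ⟨h2, h3⟩
  · have e : stretchFun x = x / 3 := by
      unfold stretchFun
      simp only [min_def, max_def]
      split_ifs <;> linarith
    rw [e]
    exact cantor_div hx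
  · rcases cantor_cases h3 with ⟨h4, h5⟩ | ⟨h4, h5⟩
    · have e : stretchFun x = ((3 * (3 * x - 2)) + 2) / 3 / 3 := by
        unfold stretchFun
        simp only [min_def, max_def]
        split_ifs <;> linarith
      rw [e]
      exact cantor_div (cantor_add_div h5)
    · have e : stretchFun x = 3 * x - 2 := by
        unfold stretchFun
        simp only [min_def, max_def]
        split_ifs <;> linarith
      rw [e]
      exact h3

theorem stretchInv_mem {x : ℝ} (hx : x ∈ cantorSet) : stretchInv x ∈ cantorSet := by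
  have h0 := cantor_nonneg hx
  have h1 := cantor_le_one hx
  rcases cantor_cases hx with ⟨h2, h3⟩ | ⟨h2, h3⟩
  · rcases cantor_cases h3 with ⟨h4, h5⟩ | ⟨h4, h5⟩
    · have e : stretchInv x = 3 * x := by
        unfold stretchInv
        simp only [min_def, max_def]
        split_ifs <;> linarith
      rw [e]
      exact h3
    · have e : stretchInv x = (((3 * (3 * x) - 2) / 3) + 2) / 3 := by
        unfold stretchInv
        simp only [min_def, max_def]
        split_ifs <;> linarith
      rw [e]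
      exact cantor_add_div (cantor_div h5)
  · have e : stretchInv x = (x + 2) / 3 := by
      unfold stretchInv
      simp only [min_def, max_def]
      split_ifs <;> linarith
    rw [e]
    exact cantor_add_div hx

/-- The stretch of the plane. -/
noncomputable def stretch : ℂ ≃ₜ ℂ where
  toFun z := (stretchFun z.re : ℂ) + z.im * Complex.I
  invFun z := (stretchInv z.re : ℂ) + z.im * Complex.I
  left_inv z := by
    apply Complex.ext <;> simp [stretchInv_stretchFun]
  right_inv z := by
    apply Complex.ext <;> simp [stretchFun_stretchInv]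
  continuous_toFun := by
    have := stretchFun_continuous
    fun_prop
  continuous_invFun := by
    have := stretchInv_continuous
    fun_prop

theorem stretch_re (z : ℂ) : (stretch z).re = stretchFun z.re := by
  show ((stretchFun z.re : ℂ) + z.im * Complex.I).re = _
  simp

theorem stretch_im (z : ℂ) : (stretch z).im = z.im := by
  show ((stretchFun z.re : ℂ) + z.im * Complex.I).im = _
  simp

theorem stretch_mem_orient : stretch ∈ orientGroup := by
  refine mem_orientGroup_of_isotopy stretch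
    ⟨fun q => (((1 - (q.1 : ℝ)) * q.2.re + (q.1 : ℝ) * stretchFun q.2.re : ℝ) : ℂ) +
      q.2.im * Complex.I, ?_⟩ ?_ ?_ ?_
  · have := stretchFun_continuous
    fun_prop
  · intro t z w h
    have h1 := congrArg Complex.re h
    have h2 := congrArg Complex.im h
    simp only [ContinuousMap.coe_mk, Complex.add_re, Complex.ofReal_re, Complex.mul_re,
      Complex.I_re, mul_zero, Complex.ofReal_im, Complex.I_im, mul_one, sub_self, add_zero,
      Complex.add_im, Complex.mul_im, zero_add] at h1 h2
    apply Complex.ext _ h2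
    have ht0 := t.2.1
    have ht1 := t.2.2
    rcases lt_trichotomy z.re w.re with hlt | heq | hlt
    · exfalso
      have := stretchFun_strictMono hlt
      rcases eq_or_lt_of_le ht0 with h0 | h0
      · rw [← h0] at h1
        linarith
      · nlinarith [mul_lt_mul_of_pos_left this h0,
          mul_le_mul_of_nonneg_left hlt.le (sub_nonneg.2 ht1)]
    · exact heq
    · exfalso
      have := stretchFun_strictMono hlt
      rcases eq_or_lt_of_le ht0 with h0 | h0
      · rw [← h0] at h1
        linarith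
      · nlinarith [mul_lt_mul_of_pos_left this h0,
          mul_le_mul_of_nonneg_left hlt.le (sub_nonneg.2 ht1)]
  · intro z
    apply Complex.ext <;> simp
  · intro z
    apply Complex.ext
    · rw [stretch_re]
      simp
    · rw [stretch_im]
      simp

/-! ### The half twist -/

/-- The cut-off. -/
noncomputable def cutoff (s : ℝ) : ℝ := max 0 (min 1 (2 - 2 * s))

theorem cutoff_continuous : Continuous cutoff := by
  unfold cutoff
  fun_prop

theorem cutoff_of_le {s : ℝ} (h : s ≤ 1 / 2) : cutoff s = 1 := by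
  unfold cutoff
  simp only [min_def, max_def]
  split_ifs <;> linarith

theorem cutoff_of_ge {s : ℝ} (h : 1 ≤ s) : cutoff s = 0 := by
  unfold cutoff
  simp only [min_def, max_def]
  split_ifs <;> linarith

/-- The twist through the angle `a`. -/
noncomputable def twistFun (a : ℝ) (z : ℂ) : ℂ :=
  1 / 2 + (z - 1 / 2) * Complex.exp (((a * cutoff ‖z - 1 / 2‖ : ℝ) : ℂ) * Complex.I)

theorem norm_twistFun (a : ℝ) (z : ℂ) : ‖twistFun a z - 1 / 2‖ = ‖z - 1 / 2‖ := by
  unfold twistFun
  rw [add_sub_cancel_left, norm_mul, Complex.norm_exp_ofReal_mul_I, mul_one]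

theorem twistFun_twistFun (a b : ℝ) (z : ℂ) : twistFun a (twistFun b z) = twistFun (a + b) z := by
  have h : twistFun a (twistFun b z) = 1 / 2 + (twistFun b z - 1 / 2) *
      Complex.exp (((a * cutoff ‖z - 1 / 2‖ : ℝ) : ℂ) * Complex.I) := by
    rw [← norm_twistFun b z]
    rfl
  rw [h]
  unfold twistFun
  rw [add_sub_cancel_left, mul_assoc, ← Complex.exp_add]
  congr 3
  push_cast
  ring

theorem twistFun_zero (z : ℂ) : twistFun 0 z = z := by
  unfold twistFun
  simp

theorem twistFun_continuous (a : ℝ) : Continuous (twistFun a) := by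
  unfold twistFun
  have := cutoff_continuous
  fun_prop

/-- The half twist, as a homeomorphism of the plane. -/
noncomputable def twist : ℂ ≃ₜ ℂ where
  toFun := twistFun Real.pi
  invFun := twistFun (-Real.pi)
  left_inv z := by rw [twistFun_twistFun]; simp [twistFun_zero]
  right_inv z := by rw [twistFun_twistFun]; simp [twistFun_zero]
  continuous_toFun := twistFun_continuous _
  continuous_invFun := twistFun_continuous _

theorem twist_mem_orient : twist ∈ orientGroup := by
  refine mem_orientGroup_of_isotopy twist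
    ⟨fun q => 1 / 2 + (q.2 - 1 / 2) *
      Complex.exp ((((q.1 : ℝ) * Real.pi * cutoff ‖q.2 - 1 / 2‖ : ℝ) : ℂ) * Complex.I), ?_⟩
      ?_ ?_ ?_
  · have := cutoff_continuous
    fun_prop
  · intro t z w h
    have h1 : twistFun ((t : ℝ) * Real.pi) z = twistFun ((t : ℝ) * Real.pi) w := h
    have h2 := congrArg (twistFun (-((t : ℝ) * Real.pi))) h1
    rw [twistFun_twistFun, twistFun_twistFun] at h2
    simpa [twistFun_zero] using h2
  · intro z
    simp
  · intro z
    show 1 / 2 + (z - 1 / 2) * Complex.exp (((((1 : I) : ℝ) * Real.pi * cutoff ‖z - 1 / 2‖ : ℝ) : ℂ)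
      * Complex.I) = twistFun Real.pi z
    unfold twistFun
    simp

theorem twist_of_ge {z : ℂ} (h : 1 ≤ ‖z - 1 / 2‖) : twist z = z := by
  show twistFun Real.pi z = z
  unfold twistFun
  rw [cutoff_of_ge h]
  simp

theorem twist_of_le {z : ℂ} (h : ‖z - 1 / 2‖ ≤ 1 / 2) : twist z = 1 - z := by
  show twistFun Real.pi z = 1 - z
  unfold twistFun
  rw [cutoff_of_le h]
  simp only [mul_one, Complex.exp_pi_mul_I]
  ring

theorem twist_symm_of_le {z : ℂ} (h : ‖z - 1 / 2‖ ≤ 1 / 2) : twist.symm z = 1 - z := by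
  rw [Homeomorph.symm_apply_eq, twist_of_le]
  · ring
  · have : 1 - z - 1 / 2 = -(z - 1 / 2) := by ring
    rw [this, norm_neg]
    exact h

/-! ### Affine maps -/

/-- The affine map `z ↦ (z + c) / 3`. -/
noncomputable def affine (c : ℝ) : ℂ ≃ₜ ℂ where
  toFun z := (z + c) / 3
  invFun z := 3 * z - c
  left_inv z := by
    show 3 * ((z + c) / 3) - c = z
    ring
  right_inv z := by
    show (3 * z - c + c) / 3 = z
    ring
  continuous_toFun := by fun_prop
  continuous_invFun := by fun_prop

theorem affine_mem_orient (c : ℝ) : affine c ∈ orientGroup := by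
  refine mem_orientGroup_of_isotopy (affine c)
    ⟨fun q => (((1 - (q.1 : ℝ)) + (q.1 : ℝ) / 3 : ℝ) : ℂ) * q.2 + (((q.1 : ℝ) / 3 * c : ℝ) : ℂ), ?_⟩
      ?_ ?_ ?_
  · fun_prop
  · intro t z w h
    have ht0 := t.2.1
    have ht1 := t.2.2
    have hne : (((1 - (t : ℝ)) + (t : ℝ) / 3 : ℝ) : ℂ) ≠ 0 := by
      rw [Ne, Complex.ofReal_eq_zero]
      intro h
      linarith
    have h1 : (((1 - (t : ℝ)) + (t : ℝ) / 3 : ℝ) : ℂ) * z + (((t : ℝ) / 3 * c : ℝ) : ℂ) =
      (((1 - (t : ℝ)) + (t : ℝ) / 3 : ℝ) : ℂ) * w + (((t : ℝ) / 3 * c : ℝ) : ℂ) := h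
    exact mul_left_cancel₀ hne (add_right_cancel h1)
  · intro z
    simp
  · intro z
    show (((1 - ((1 : I) : ℝ)) + ((1 : I) : ℝ) / 3 : ℝ) : ℂ) * z + ((((1 : I) : ℝ) / 3 * c : ℝ) : ℂ) =
      (z + c) / 3
    simp
    ring

end Pool.Agent.Y456.BigMap
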